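import Pool.Agent.Y661.HE.Stm3
import Pool.Agent.Y858.HE.AS5

/-! Asymptotics for a fixed number of terms -/

set_option autoImplicit false

namespace Pool.Agent.Y661.HE.AS8

open Filter Pool.Agent.Y858.HE.AS5

theorem main : S_AS8 := by
  intro β hβ hβ2 m N hN
  set C₀ : ℝ := 288 * (N : ℝ) ^ 2 * ((N : ℝ) * N + 1) ^ 2 * ((N + 1).factorial : ℝ) with hC₀
  have hNpos : 0 < N := by omega
  have hN0 : (0 : ℝ) < N := by exact_mod_cast hNpos
  have hfac : (0 : ℝ) < ((N + 1).factorial : ℝ) := by exact_mod_cast Nat.factorial_pos _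
  have hC0 : 0 < C₀ := by positivity
  filter_upwards [evg hβ ((m + 2 : ℕ) : ℝ) 36 (by norm_num), six hβ hβ,
    evp one_pos (max (max (16 * N) (72 * (4 * (N : ℝ)) ^ N)) (5 * C₀)), eventually_ge_atTop 1]
    with d g1 g2 g3 g4 r R hr hR
  obtain ⟨x, hx⟩ : ∃ x : ℝ, x = d := ⟨_, rfl⟩
  rw [Real.rpow_one] at g3
  rw [Real.rpow_natCast] at g1
  rw [← hx] at g1 g2 g3 hr hR ⊢
  have hx1 : 1 ≤ x := by rw [hx]; exact_mod_cast g4
  have hx0 : 0 < x := by linarith
  have k1 : 16 * (N : ℝ) ≤ x := (le_max_left _ _).trans ((le_max_left _ _).trans g3)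
  have k2 : 72 * (4 * (N : ℝ)) ^ N ≤ x := (le_max_right _ _).trans ((le_max_left _ _).trans g3)
  have k3 : 5 * C₀ ≤ x := (le_max_right _ _).trans g3
  have hrpos : 0 < r := by rw [hr]; positivity
  have hceil : Real.exp (2 * x ^ β) ≤ R := by rw [hR]; exact Nat.le_ceil _
  have hceil2 : (R : ℝ) ≤ Real.exp (2 * x ^ β) + 1 := by
    rw [hR]; exact (Nat.ceil_lt_add_one (Real.exp_pos _).le).le
  have hxb0 : 0 ≤ x ^ β := by positivity
  have hxb : x ^ β ≤ x := by
    calc x ^ β ≤ x ^ (1 : ℝ) := Real.rpow_le_rpow_of_exponent_le hx1 (by linarith)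
      _ = x := Real.rpow_one x
  have hexp1 : 1 ≤ Real.exp (2 * x ^ β) := Real.one_le_exp (by positivity)
  have hee : Real.exp (x ^ β) ≤ Real.exp (2 * x ^ β) := Real.exp_le_exp.2 (by linarith)
  refine ⟨?_, ?_, ?_, ?_, hceil2.trans g2, ?_⟩
  · rw [div_le_one hx0]
    linarith
  · have e1 : (4 * 1 * (N : ℝ) / x) ^ N = (4 * (N : ℝ)) ^ N / x ^ N := by
      rw [← div_pow]; ring
    have e2 : x ^ (m + 2) ≤ x ^ N := pow_le_pow_right₀ hx1 (by omega)
    rw [e1]
    calc 9 * 1 * ((4 * (N : ℝ)) ^ N / x ^ N) ≤ 9 * 1 * ((x / 72) / x ^ (m + 2)) := by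
          gcongr
          linarith
      _ = r / 8 := by
          rw [hr]
          field_simp
          ring
  · unfold pr
    rw [← hx]
    have e1 : (2 * (R : ℝ) + 1) ^ d ≤ Real.exp (x * (2 * x ^ β + 2)) := by
      have h1 : 2 * (R : ℝ) + 1 ≤ Real.exp (2 * x ^ β + 2) := by
        rw [Real.exp_add]
        have h2 : (5 : ℝ) ≤ Real.exp 2 := by
          have h3 := Real.quadratic_le_exp_of_nonneg (show (0 : ℝ) ≤ 2 by norm_num)
          linarith
        nlinarith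
      calc (2 * (R : ℝ) + 1) ^ d ≤ (Real.exp (2 * x ^ β + 2)) ^ d :=
            pow_le_pow_left₀ (by positivity) h1 d
        _ = Real.exp (x * (2 * x ^ β + 2)) := by rw [← Real.exp_nat_mul, hx]
    have e2 : (Real.sqrt x) ^ N = x ^ (2 * m + 6) := by
      rw [show N = 2 * (2 * m + 6) by omega, pow_mul, Real.sq_sqrt hx0.le]
    have e3 : 2 * (r / (8 * N)) ^ 2 * (Real.sqrt x) ^ N /
        (9 * 1 ^ 2 * ((N : ℝ) * N + 1) ^ 2 * ((N + 1).factorial : ℝ)) = x ^ 4 / C₀ := by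
      have e4 : x ^ (2 * m + 6) = x ^ 4 * (x ^ (m + 1)) ^ 2 := by ring
      rw [e2, e4, hr, hC₀]
      field_simp
      ring
    rw [e3]
    have e5 : 5 * x ^ 2 ≤ x ^ 4 / C₀ := by
      rw [le_div_iff₀ hC0]
      have h1 : C₀ * 5 ≤ x ^ 2 := by nlinarith
      calc 5 * x ^ 2 * C₀ = x ^ 2 * (C₀ * 5) := by ring
        _ ≤ x ^ 2 * x ^ 2 := by gcongr
        _ = x ^ 4 := by ring
    have e6 : x * (2 * x ^ β + 2) ≤ 4 * x ^ 2 := by nlinarith
    have e7 : 8 * (N : ℝ) ≤ Real.exp (x ^ 2) := by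
      have h1 := Real.add_one_le_exp (x ^ 2)
      nlinarith
    calc (2 * (R : ℝ) + 1) ^ d * (2 * N * Real.exp (-(x ^ 4 / C₀))) ≤
          Real.exp (4 * x ^ 2) * (2 * N * Real.exp (-(5 * x ^ 2))) := by
            gcongr
            exact e1.trans (Real.exp_le_exp.2 e6)
      _ = 2 * N * Real.exp (-(x ^ 2)) := by
          have h1 : Real.exp (4 * x ^ 2) * Real.exp (-(5 * x ^ 2)) = Real.exp (-(x ^ 2)) := by
            rw [← Real.exp_add]; congr 1; ring
          rw [← h1]; ring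
      _ ≤ 1 / 4 := by
          rw [Real.exp_neg]
          have h1 := Real.exp_pos (x ^ 2)
          rw [← div_eq_mul_inv, div_le_iff₀ h1]
          linarith
  · have h1 : 36 * x ^ (m + 2) ≤ 2 * (R : ℝ) + 1 := by linarith
    have h2 : (0 : ℝ) < 2 * (R : ℝ) + 1 := by positivity
    rw [div_le_iff₀ h2, hr]
    have h3 : 18 * x = (x ^ (m + 1))⁻¹ / 2 * (36 * x ^ (m + 2)) := by
      field_simp
      ring
    rw [h3]
    exact mul_le_mul_of_nonneg_left h1 (by positivity)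
  · unfold rr
    rw [← hx, hr, Real.exp_neg]
    apply inv_anti₀ (by positivity)
    have h1 : x ^ (m + 1) ≤ x ^ (m + 2) := pow_le_pow_right₀ hx1 (by omega)
    have h2 : 0 < x ^ (m + 2) := by positivity
    linarith

end Pool.Agent.Y661.HE.AS8
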