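import Pool.Agent.Y661.HE.Stm3

/-! The complete expansion of the effective band edge -/

set_option autoImplicit false

open scoped BigOperators ENNReal Topology
open MeasureTheory Filter

namespace Pool.Agent.Y661.HE.Expn

open Pool.Agent.H12R2.And (V ee Q card_Q Q_mono)
open Core (GE Loc)
open FinB (mB mB_le mB_neg mB_sq)

theorem RF_zero : RF fun _ => 0 := ⟨0, 0, fun d _ => by simp⟩

theorem RF_add {f g : ℕ → ℝ} (hf : RF f) (hg : RF g) : RF fun d => f d + g d := by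
  obtain ⟨p, k, hp⟩ := hf
  obtain ⟨q, l, hq⟩ := hg
  refine ⟨p * Polynomial.X ^ l + q * Polynomial.X ^ k, k + l, fun d hd => ?_⟩
  have hd' : (0 : ℝ) < d := by exact_mod_cast hd
  beta_reduce
  rw [hp d hd, hq d hd]
  simp only [Polynomial.map_add, Polynomial.map_mul, Polynomial.map_pow, Polynomial.map_X,
    Polynomial.eval_add, Polynomial.eval_mul, Polynomial.eval_pow, Polynomial.eval_X]
  field_simp
  ring

theorem RF_sum {ι : Type} (s : Finset ι) (f : ι → ℕ → ℝ) (h : ∀ i ∈ s, RF (f i)) :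
    RF fun d => ∑ i ∈ s, f i d := by
  classical
  induction s using Finset.induction_on with
  | empty => simpa using RF_zero
  | insert i s hi ih =>
    simp only [Finset.sum_insert hi]
    exact RF_add (h i (Finset.mem_insert_self _ _))
      (ih fun j hj => h j (Finset.mem_insert_of_mem hj))

/-- comparison with a fixed number of terms -/
theorem cmp2 (hRES : S_RES) (hPRB : S_PRB) (hLOW : S_LOW) (hUPP : S_UPP) (hA1 : S_AS1)
    (hA5 : S_AS5) (hA8 : S_AS8) (β : ℝ) (hβ : 0 < β) (hβ2 : β < 1 / 2) (m : ℕ) :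
    ∀ᶠ d : ℕ in atTop,
    |Es (NN β d) (NN β d) (PI d mB) - Es (4 * m + 12) (4 * m + 12) (PI d mB)| ≤
      2 * ((d : ℝ) ^ (m + 1))⁻¹ := by
  filter_upwards [Core.core hRES hPRB hLOW hUPP hA1 hA5 β hβ hβ2, hA5 β hβ hβ2,
    hA8 β hβ hβ2 m (4 * m + 12) rfl, eventually_ge_atTop 1] with d h1 h3 h8 hd
  have hd' : (1 : ℝ) ≤ d := by exact_mod_cast hd
  have h1d : (1 : ℝ) ≤ (d : ℝ) ^ (1 / 4 : ℝ) := Real.one_le_rpow hd' (by norm_num)
  have k1 := (h1 1 one_pos h1d mB mB_le).trans h3.2.2.2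
  set R : ℕ := ⌈Real.exp (2 * (d : ℝ) ^ β)⌉₊ with hR
  set r : ℝ := ((d : ℝ) ^ (m + 1))⁻¹ with hr
  obtain ⟨b1, b2, b3, b4, b5, b6⟩ := h8 r R rfl rfl
  have hr0 : 0 < r := by positivity
  set N : ℕ := 4 * m + 12 with hN
  have hN0 : (0 : ℝ) < N := by
    have : 0 < N := by omega
    exact_mod_cast this
  have hc8 : 8 * 1 * (N : ℝ) / d ≤ 1 := by
    have : 8 * 1 * (N : ℝ) / d = (16 * 1 * N / d) / 2 := by ring
    rw [this]; linarith
  have hbox := Core.box hPRB hd N 1 (r / (8 * N)) mB one_pos (by positivity) mB_le hc8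
    (Q (0 : V d) R)
  rw [card_Q] at hbox
  push_cast at hbox
  have k2 := hbox.trans b3
  set B1 : Set (V d → ℝ) := {W | ¬ ∀ R : ℕ, Real.exp (2 * (d : ℝ) ^ β) ≤ R →
      (R : ℝ) ≤ Real.exp (Real.exp ((d : ℝ) ^ β)) →
      Loc W R (Es (NN β d) (NN β d) (PI d mB)) (rr β d)} with hB1
  set B2 : Set (V d → ℝ) := {W | ¬ ∀ x ∈ Q (0 : V d) R, GE N (PI d mB) (r / (8 * N)) W x} with hB2
  set B3 : Set (V d → ℝ) := {W | ¬ Bd 1 W} with hB3
  have k3 : (PI d mB).real B3 = 0 := by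
    have h := Core.ae_Bd (d := d) mB 1 mB_le
    rw [ae_iff] at h
    rw [measureReal_def, hB3, h, ENNReal.toReal_zero]
  have hU : (PI d mB).real (B1 ∪ B2 ∪ B3) ≤ 1 / 2 := by
    refine (measureReal_union_le _ _).trans ?_
    have := measureReal_union_le (μ := PI d mB) B1 B2
    linarith
  have hne : ∃ W, W ∉ B1 ∪ B2 ∪ B3 := by
    by_contra hcon
    push Not at hcon
    have : B1 ∪ B2 ∪ B3 = Set.univ := Set.eq_univ_of_forall hcon
    rw [this, probReal_univ] at hU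
    norm_num at hU
  obtain ⟨W, hW⟩ := hne
  rw [Set.mem_union, Set.mem_union, not_or, not_or] at hW
  obtain ⟨⟨w1, w2⟩, w3⟩ := hW
  have w1' := not_not.1 w1 R (Nat.le_ceil _) b5
  have w2' := not_not.1 w2
  have w3' : Bd 1 W := not_not.1 w3
  have l2 := Core.loc_of hRES hLOW hUPP hd N 1 r (PI d mB) zero_le_one (Core.ae_Bd mB 1 mB_le)
    b1 b2 hr0.le W w3' R b4 w2'
  have := Core.close W R _ _ _ _ w1' l2
  linarith

/-- the expansion -/
theorem main (hRES : S_RES) (hPRB : S_PRB) (hLOW : S_LOW) (hUPP : S_UPP) (hEXP : S_EXP)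
    (hA1 : S_AS1) (hA5 : S_AS5) (hA6 : S_AS6) (hA7 : S_AS7) (hA8 : S_AS8) (hRAT : S_RAT)
    (hCOE : S_COE) : ∃ a : ℕ → ℚ, a 0 = 0 ∧ a 1 = -1 / 2 ∧ a 2 = -1 / 4 ∧
    ∀ β : ℝ, 0 < β → β < 1 / 2 → ∀ m : ℕ, ∃ (C : ℝ) (d₀ : ℕ), ∀ d : ℕ, d₀ ≤ d →
      |Es (NN β d) (NN β d) (PI d mB) -
        ∑ j ∈ Finset.range (m + 1), (a j : ℝ) * ((d : ℝ) ^ j)⁻¹| ≤ C * ((d : ℝ) ^ (m + 1))⁻¹ := by
  set E0 : ℕ → ℝ := fun d => Es (NN (1 / 4) d) (NN (1 / 4) d) (PI d mB) with hE0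
  have hRF : ∀ m : ℕ, RF fun d => Es (4 * m + 12) (4 * m + 12) (PI d mB) := by
    intro m
    unfold Es
    exact RF_sum _ _ fun n _ => hRAT _ n
  have hen : ∀ᶠ d : ℕ in atTop, |E0 d + (1 / (2 * d) + 1 / (4 * (d : ℝ) ^ 2))| ≤
      (d : ℝ) ^ (-(9 / 4) : ℝ) := by
    filter_upwards [Core.energy hRES hPRB hLOW hUPP hEXP hA1 hA5 hA6 hA7 (1 / 4) (by norm_num)
      (by norm_num) 0, eventually_ge_atTop 1] with d h1 hd
    have hd' : (1 : ℝ) ≤ d := by exact_mod_cast hd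
    have h1d : (1 : ℝ) ≤ (d : ℝ) ^ (1 / 4 : ℝ) := Real.one_le_rpow hd' (by norm_num)
    have h2 := h1 1 (by simp) h1d mB mB_le mB_neg 1 mB_sq
    rw [one_pow, one_mul] at h2
    have e1 : 1 / (2 * (d : ℝ)) * (1 + 1 / (2 * d)) = 1 / (2 * d) + 1 / (4 * d ^ 2) := by
      field_simp
      ring
    rw [e1] at h2
    exact h2
  have hpow : ∀ᶠ d : ℕ in atTop, (d : ℝ) ^ (-(9 / 4) : ℝ) ≤ 1 := by
    filter_upwards [eventually_ge_atTop 1] with d hd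
    have hd' : (1 : ℝ) ≤ d := by exact_mod_cast hd
    exact Real.rpow_le_one_of_one_le_of_nonpos hd' (by norm_num)
  have hbd : ∃ (C : ℝ) (d₀ : ℕ), ∀ d : ℕ, d₀ ≤ d → |E0 d| ≤ C := by
    obtain ⟨d₀, hd₀⟩ := ((hen.and hpow).and (eventually_ge_atTop 1)).exists_forall_of_atTop
    refine ⟨2, d₀, fun d hd => ?_⟩
    obtain ⟨⟨h1, h2⟩, h3⟩ := hd₀ d hd
    have hd' : (1 : ℝ) ≤ d := by exact_mod_cast h3
    have h4 := abs_le.1 (h1.trans h2)
    have h5 : 0 ≤ 1 / (2 * (d : ℝ)) ∧ 1 / (2 * (d : ℝ)) ≤ 1 / 2 := by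
      refine ⟨by positivity, ?_⟩
      apply one_div_le_one_div_of_le (by norm_num); linarith
    have h6 : 0 ≤ 1 / (4 * (d : ℝ) ^ 2) ∧ 1 / (4 * (d : ℝ) ^ 2) ≤ 1 / 4 := by
      refine ⟨by positivity, ?_⟩
      apply one_div_le_one_div_of_le (by norm_num)
      nlinarith
    rw [abs_le]
    constructor <;> linarith [h4.1, h4.2, h5.1, h5.2, h6.1, h6.2]
  have hap : ∀ m : ℕ, ∃ f : ℕ → ℝ, RF f ∧ ∃ (C : ℝ) (d₀ : ℕ), ∀ d : ℕ, d₀ ≤ d →
      |E0 d - f d| ≤ C * ((d : ℝ) ^ (m + 1))⁻¹ := by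
    intro m
    obtain ⟨d₀, hd₀⟩ := (cmp2 hRES hPRB hLOW hUPP hA1 hA5 hA8 (1 / 4) (by norm_num) (by norm_num)
      m).exists_forall_of_atTop
    exact ⟨_, hRF m, 2, d₀, hd₀⟩
  obtain ⟨a, ha⟩ := hCOE E0 hbd hap
  -- the first coefficients
  have h3t : Tendsto (fun d : ℕ => ((d : ℝ))⁻¹) atTop (𝓝 0) :=
    tendsto_inv_atTop_zero.comp tendsto_natCast_atTop_atTop
  have hkey : ∃ C : ℝ, ∀ᶠ d : ℕ in atTop,
      |(a 0 : ℝ) + ((a 1 : ℝ) + 1 / 2) * (d : ℝ)⁻¹ + ((a 2 : ℝ) + 1 / 4) * ((d : ℝ) ^ 2)⁻¹| ≤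
        C * ((d : ℝ) ^ 3)⁻¹ + (d : ℝ) ^ (-(9 / 4) : ℝ) := by
    obtain ⟨C, d₀, h⟩ := ha 2
    refine ⟨C, ?_⟩
    filter_upwards [hen, eventually_ge_atTop d₀, eventually_ge_atTop 1] with d h1 h2 hd
    have hd' : (1 : ℝ) ≤ d := by exact_mod_cast hd
    have h3 := h d h2
    rw [Finset.sum_range_succ, Finset.sum_range_succ, Finset.sum_range_succ,
      Finset.sum_range_zero] at h3
    have e1 : 1 / (2 * (d : ℝ)) = 1 / 2 * (d : ℝ)⁻¹ := by field_simp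
    have e2 : 1 / (4 * (d : ℝ) ^ 2) = 1 / 4 * ((d : ℝ) ^ 2)⁻¹ := by field_simp
    rw [e1, e2] at h1
    rw [pow_zero, inv_one, mul_one, pow_one] at h3
    have l1 := abs_le.1 h1
    have l3 := abs_le.1 h3
    rw [abs_le]
    constructor <;> linarith [l1.1, l1.2, l3.1, l3.2]
  obtain ⟨C, hC⟩ := hkey
  have hz : ∀ p : ℝ, 0 < p → Tendsto (fun d : ℕ => (d : ℝ) ^ (-p)) atTop (𝓝 0) := fun p hp =>
    (tendsto_rpow_neg_atTop hp).comp tendsto_natCast_atTop_atTop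
  have hzero : ∀ (x : ℝ) (u v : ℕ → ℝ), Tendsto u atTop (𝓝 0) → Tendsto v atTop (𝓝 0) →
      (∀ᶠ d : ℕ in atTop, |x + u d| ≤ v d) → x = 0 := by
    intro x u v hu hv h
    have h1 : Tendsto (fun d => |x + u d|) atTop (𝓝 |x + 0|) := (tendsto_const_nhds.add hu).abs
    rw [add_zero] at h1
    have h2 := le_of_tendsto_of_tendsto h1 hv h
    exact abs_nonpos_iff.1 h2
  have hI : ∀ n : ℕ, n ≠ 0 → Tendsto (fun d : ℕ => ((d : ℝ) ^ n)⁻¹) atTop (𝓝 0) := by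
    intro n hn
    have := h3t.pow n
    rw [zero_pow hn] at this
    simpa only [inv_pow] using this
  have ha0 : (a 0 : ℝ) = 0 := by
    refine hzero _ (fun d => ((a 1 : ℝ) + 1 / 2) * (d : ℝ)⁻¹ + ((a 2 : ℝ) + 1 / 4) *
      ((d : ℝ) ^ 2)⁻¹) (fun d => C * ((d : ℝ) ^ 3)⁻¹ + (d : ℝ) ^ (-(9 / 4) : ℝ)) ?_ ?_ ?_
    · simpa using (h3t.const_mul ((a 1 : ℝ) + 1 / 2)).add
        ((hI 2 two_ne_zero).const_mul ((a 2 : ℝ) + 1 / 4))
    · simpa using ((hI 3 (by norm_num)).const_mul C).add (hz (9 / 4) (by norm_num))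
    · filter_upwards [hC] with d h
      rw [← add_assoc]
      exact h
  have ha1 : (a 1 : ℝ) + 1 / 2 = 0 := by
    refine hzero _ (fun d => ((a 2 : ℝ) + 1 / 4) * ((d : ℝ))⁻¹)
      (fun d => C * ((d : ℝ) ^ 2)⁻¹ + (d : ℝ) ^ (-(5 / 4) : ℝ)) ?_ ?_ ?_
    · simpa using h3t.const_mul ((a 2 : ℝ) + 1 / 4)
    · simpa using ((hI 2 (by norm_num)).const_mul C).add (hz (5 / 4) (by norm_num))
    · filter_upwards [hC, eventually_ge_atTop 1] with d h hd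
      have hd' : (0 : ℝ) < d := by exact_mod_cast hd
      rw [ha0, zero_add] at h
      have e1 : (d : ℝ) ^ (-(9 / 4) : ℝ) * d = (d : ℝ) ^ (-(5 / 4) : ℝ) := by
        nth_rewrite 2 [← Real.rpow_one (d : ℝ)]
        rw [← Real.rpow_add hd']
        norm_num
      have h2 := mul_le_mul_of_nonneg_right h hd'.le
      have e2 : |((a 1 : ℝ) + 1 / 2) * (d : ℝ)⁻¹ + ((a 2 : ℝ) + 1 / 4) * ((d : ℝ) ^ 2)⁻¹| * d =
          |((a 1 : ℝ) + 1 / 2) + ((a 2 : ℝ) + 1 / 4) * ((d : ℝ))⁻¹| := by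
        nth_rewrite 3 [← abs_of_pos hd']
        rw [← abs_mul]
        congr 1
        field_simp
      rw [e2] at h2
      refine h2.trans (le_of_eq ?_)
      rw [add_mul, e1]
      congr 1
      field_simp
  have ha2 : (a 2 : ℝ) + 1 / 4 = 0 := by
    refine hzero _ (fun _ => 0)
      (fun d => C * ((d : ℝ))⁻¹ + (d : ℝ) ^ (-(1 / 4) : ℝ)) tendsto_const_nhds ?_ ?_
    · simpa using (h3t.const_mul C).add (hz (1 / 4) (by norm_num))
    · filter_upwards [hC, eventually_ge_atTop 1] with d h hd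
      have hd' : (0 : ℝ) < d := by exact_mod_cast hd
      rw [ha0, ha1, zero_add, zero_mul, zero_add] at h
      have e1 : (d : ℝ) ^ (-(9 / 4) : ℝ) * (d : ℝ) ^ 2 = (d : ℝ) ^ (-(1 / 4) : ℝ) := by
        rw [← Real.rpow_natCast, ← Real.rpow_add hd']
        norm_num
      have h2 := mul_le_mul_of_nonneg_right h (by positivity : (0 : ℝ) ≤ (d : ℝ) ^ 2)
      have e2 : |((a 2 : ℝ) + 1 / 4) * ((d : ℝ) ^ 2)⁻¹| * (d : ℝ) ^ 2 = |((a 2 : ℝ) + 1 / 4)| := by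
        rw [abs_mul, abs_of_pos (by positivity : (0 : ℝ) < ((d : ℝ) ^ 2)⁻¹), mul_assoc,
          inv_mul_cancel₀ (by positivity), mul_one]
      rw [e2] at h2
      rw [add_zero]
      refine h2.trans (le_of_eq ?_)
      rw [add_mul, e1]
      congr 1
      field_simp
  refine ⟨a, by exact_mod_cast ha0, ?_, ?_, ?_⟩
  · have : (a 1 : ℝ) = ((-1 / 2 : ℚ) : ℝ) := by push_cast; linarith
    exact_mod_cast this
  · have : (a 2 : ℝ) = ((-1 / 4 : ℚ) : ℝ) := by push_cast; linarith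
    exact_mod_cast this
  · intro β hβ hβ2 m
    obtain ⟨C1, d1, h1⟩ := ha m
    obtain ⟨d2, h2⟩ := ((cmp2 hRES hPRB hLOW hUPP hA1 hA5 hA8 β hβ hβ2 m).and
      (cmp2 hRES hPRB hLOW hUPP hA1 hA5 hA8 (1 / 4) (by norm_num) (by norm_num)
      m)).exists_forall_of_atTop
    refine ⟨C1 + 4, max d1 d2, fun d hd => ?_⟩
    have g1 := abs_le.1 (h1 d ((le_max_left _ _).trans hd))
    obtain ⟨g2, g3⟩ := h2 d ((le_max_right _ _).trans hd)
    have g2' := abs_le.1 g2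
    have g3' := abs_le.1 g3
    simp only [hE0] at g1
    rw [abs_le]
    constructor <;> linarith [g1.1, g1.2, g2'.1, g2'.2, g3'.1, g3'.2]

end Pool.Agent.Y661.HE.Expn
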