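import Pool.Agent.Y661.HE.FinB

/-!
# The Anderson model in high dimension: complete expansion of the effective band edge in `1 / d`

Statements of the third wave of parts (project HE, helper661).
-/

set_option autoImplicit false

open scoped BigOperators ENNReal
open MeasureTheory Filter

namespace Pool.Agent.Y661.HE

open Pool.Agent.H12R2.And (V ee Q pot PP Dep Good)
open FinB (mB)

/-- rational functions of the dimension whose denominator is a power of `d` -/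
def RF (f : ℕ → ℝ) : Prop := ∃ (p : Polynomial ℚ) (k : ℕ), ∀ d : ℕ, 1 ≤ d →
  f d = (p.map (algebraMap ℚ ℝ)).eval (d : ℝ) / (d : ℝ) ^ k

/-- sums of functions which only depend on the coincidences are polynomials in the dimension -/
def S_PLY : Prop := ∀ (L : ℕ) (F : ∀ d : ℕ, (Fin L → Fin d) → ℚ),
  (∀ (d d' : ℕ) (j : Fin d ↪ Fin d') (i : Fin L → Fin d), F d' (j ∘ i) = F d i) →
  ∃ p : Polynomial ℚ, ∀ d : ℕ, ∑ i : Fin L → Fin d, F d i = p.eval (d : ℚ)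

/-- the coefficients of the energy are rational functions of the dimension (Bernoulli law) -/
def S_RAT : Prop := ∀ N n : ℕ, RF fun d => en N (PI d mB) n

/-- asymptotics for a fixed number of terms -/
def S_AS8 : Prop := ∀ β : ℝ, 0 < β → β < 1 / 2 → ∀ m N : ℕ, N = 4 * m + 12 →
  ∀ᶠ d : ℕ in atTop, ∀ (r : ℝ) (R : ℕ), r = ((d : ℝ) ^ (m + 1))⁻¹ →
  R = ⌈Real.exp (2 * (d : ℝ) ^ β)⌉₊ →
  16 * 1 * (N : ℝ) / d ≤ 1 ∧ 9 * 1 * (4 * 1 * (N : ℝ) / d) ^ N ≤ r / 8 ∧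
  (2 * (R : ℝ) + 1) ^ d * pr d N 1 (r / (8 * N)) ≤ 1 / 4 ∧
  18 * d / (2 * (R : ℝ) + 1) ≤ r / 2 ∧ (R : ℝ) ≤ Real.exp (Real.exp ((d : ℝ) ^ β)) ∧
  rr β d ≤ r

/-- coefficients of an asymptotic expansion -/
def S_COE : Prop := ∀ E : ℕ → ℝ, (∃ (C : ℝ) (d₀ : ℕ), ∀ d : ℕ, d₀ ≤ d → |E d| ≤ C) →
  (∀ m : ℕ, ∃ f : ℕ → ℝ, RF f ∧ ∃ (C : ℝ) (d₀ : ℕ), ∀ d : ℕ, d₀ ≤ d →
    |E d - f d| ≤ C * ((d : ℝ) ^ (m + 1))⁻¹) →
  ∃ a : ℕ → ℚ, ∀ m : ℕ, ∃ (C : ℝ) (d₀ : ℕ), ∀ d : ℕ, d₀ ≤ d →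
    |E d - ∑ j ∈ Finset.range (m + 1), (a j : ℝ) * ((d : ℝ) ^ j)⁻¹| ≤
      C * ((d : ℝ) ^ (m + 1))⁻¹

end Pool.Agent.Y661.HE
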