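import Pool.Agent.Y661.HE.Stm

/-!
# The Anderson model in high dimension: states near the effective band edge are spread out

Statements of the second wave of parts (project HE, helper661).
-/

set_option autoImplicit false

open scoped BigOperators ENNReal
open MeasureTheory Filter

namespace Pool.Agent.Y661.HE

open Pool.Agent.H12R2.And (V ee Q pot PP Dep Good)
open Pool.Agent.H4R2.HD (Av Gn ind)

/-- one step of the walk: `1 - (-Δ + W - e) / b` -/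
noncomputable def TT {d : ℕ} (W : V d → ℝ) (e b : ℝ) (f : V d → ℝ) (x : V d) : ℝ :=
  f x - (Lp f x + (W x - e) * f x) / b

/-- a Nash inequality with explicit constants -/
def S_NSH : Prop := ∀ {d : ℕ}, 1 ≤ d → ∀ (z : V d) (R m : ℕ) (g : V d → ℝ),
  (∀ x, x ∉ Q z R → g x = 0) →
  ∑ x ∈ Q z R, g x ^ 2 ≤
    (m : ℝ) / 2 * ∑ x ∈ Q z (R + 1), ∑ i : Fin d, (g (x + ee i) - g x) ^ 2 +
      ((Real.sqrt (2 * m + 1))⁻¹) ^ d * (∑ x ∈ Q z R, |g x|) ^ 2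

/-- the walk is local -/
def S_TLO : Prop := ∀ {d : ℕ} (W : V d → ℝ) (e b : ℝ) (z : V d) (n : ℕ) (x : V d), x ∉ Q z n →
  ((TT W e b)^[n] (ind z)) x = 0

/-- decay of the walk in the presence of an approximate ground state -/
def S_WLK : Prop := ∀ {d : ℕ}, 1 ≤ d → ∀ (φ W : V d → ℝ) (E s b : ℝ) (z : V d) (R n m : ℕ),
  (∀ x, 1 / 2 ≤ φ x ∧ φ x ≤ 3 / 2) → 0 < s → s ≤ 1 →
  (∀ x ∈ Q z R, |Lp φ x + (W x - E) * φ x| ≤ s / 2) → 12 * d + 4 ≤ b → n ≤ R → 1 ≤ m →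
  ∑ x ∈ Q z n, (((TT W (E - s) b)^[n] (ind z)) x) ^ 2 ≤
    (1 - 2 / (9 * b * m)) ^ n + 81 * ((Real.sqrt (2 * m + 1))⁻¹) ^ d

/-- eigenfunctions -/
def S_EIG : Prop := ∀ {d : ℕ} (W : V d → ℝ) (e b E' : ℝ) (z : V d) (n : ℕ) (u : V d → ℂ),
  b ≠ 0 → (Summable fun x => ‖u x‖ ^ 2) →
  (∀ x, 2 * (d : ℂ) * u x - ∑ i : Fin d, (u (x + ee i) + u (x - ee i)) + (W x : ℂ) * u x =
    (E' : ℂ) * u x) →
  ‖u z‖ ^ 2 * ((1 - (E' - e) / b) ^ n) ^ 2 ≤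
    (∑ x ∈ Q z n, (((TT W e b)^[n] (ind z)) x) ^ 2) * ∑' x, ‖u x‖ ^ 2

/-- choice of the parameters -/
def S_PAR : Prop := ∀ (d : ℕ) (q : ℝ), 10 ≤ d → 0 < q → q ≤ 1 →
  60 * q * d * Real.log (2 / q) < 1 → ∃ m n : ℕ, 1 ≤ m ∧ (n : ℝ) ≤ 3 * d / q ∧
  (1 - 2 / (9 * (12 * (d : ℝ) + 4) * m)) ^ n + 81 * ((Real.sqrt (2 * m + 1))⁻¹) ^ d ≤
    1 / 4 * (60 * q * d * Real.log (2 / q)) ^ ((d : ℝ) / 2) ∧
  1 / 2 ≤ (1 - 2 * q / (12 * (d : ℝ) + 4)) ^ n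

end Pool.Agent.Y661.HE
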