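import Pool.Agent.Y661.HE.Stm
import Pool.Agent.H4R2.HD.BA

/-! BND, RES: bounds of the correctors and the residual -/

set_option autoImplicit false

open scoped BigOperators ENNReal
open MeasureTheory Filter

namespace Pool.Agent.Y661.HE.BND

open Pool.Agent.H12R2.And (V ee Q)
open Pool.Agent.H4R2.HD (Av Gn ind)

theorem cat_le (n : ℕ) : (catalan n : ℝ) ≤ 4 ^ n := by
  have h1 : catalan n ≤ Nat.centralBinom n := by
    rw [catalan_eq_centralBinom_div]
    exact Nat.div_le_self _ _
  have h2 : Nat.centralBinom n ≤ 4 ^ n := by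
    rw [Nat.centralBinom_eq_two_mul_choose]
    calc (2 * n).choose n ≤ 2 ^ (2 * n) := Nat.choose_le_two_pow _ _
      _ = 4 ^ n := by rw [pow_mul]; norm_num
  exact_mod_cast h1.trans h2

theorem cat_succ (n : ℕ) : (catalan (n + 1) : ℝ) =
    ∑ k ∈ Finset.range (n + 1), (catalan k : ℝ) * catalan (n - k) := by
  rw [catalan_succ, Finset.sum_range]
  push_cast
  rfl

theorem cat_mono (n : ℕ) : (catalan n : ℝ) ≤ catalan (n + 1) := by
  rw [cat_succ]
  have h := Finset.single_le_sum (s := Finset.range (n + 1))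
    (f := fun k => (catalan k : ℝ) * catalan (n - k)) (fun k _ => by positivity)
    (Finset.mem_range.2 (Nat.succ_pos n))
  simpa using h

theorem bnd : S_BND := by
  intro d hd N c P _ hc hP
  have hd' : (1 : ℝ) ≤ d := by exact_mod_cast hd
  set q : ℝ := c * N / d with hq
  have hq0 : 0 ≤ q := by positivity
  -- from a bound of the corrector to a bound of the energy
  have hE : ∀ n, (∀ W, Bd c W → ∀ x, |un N P n W x| ≤ catalan n * q ^ n) →
      |en N P (n + 1)| ≤ c * catalan n * q ^ n := by
    intro n h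
    show |∫ W, W 0 * un N P n W 0 ∂P| ≤ _
    rw [← Real.norm_eq_abs]
    have h1 : ∀ᵐ W ∂P, ‖W 0 * un N P n W 0‖ ≤ c * catalan n * q ^ n := by
      filter_upwards [hP] with W hW
      rw [Real.norm_eq_abs, abs_mul, mul_assoc]
      exact mul_le_mul (hW 0) (h W hW 0) (abs_nonneg _) hc
    have h2 := norm_integral_le_of_norm_le_const h1
    simpa using h2
  have key : ∀ n, ∀ m ≤ n, ∀ W, Bd c W → ∀ x, |un N P m W x| ≤ catalan m * q ^ m := by
    intro n
    induction n with
    | zero =>
      intro m hm W _ x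
      have : m = 0 := by omega
      subst this
      rw [un_zero]
      simp
    | succ n ih =>
      intro m hm W hW x
      rcases Nat.lt_or_ge m (n + 1) with h | h
      · exact ih m (by omega) W hW x
      · have : m = n + 1 := by omega
        subst this
        rw [un_succ]
        have hg : ∀ y, |gn N P n W y| ≤ 2 * c * catalan (n + 1) * q ^ n := by
          intro y
          unfold gn
          refine (abs_add_le _ _).trans ?_
          have h1 : |-(W y * un N P n W y)| ≤ c * catalan n * q ^ n := by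
            rw [abs_neg, abs_mul, mul_assoc]
            exact mul_le_mul (hW y) (ih n le_rfl W hW y) (abs_nonneg _) hc
          have h2 : |∑ k ∈ Finset.range (n + 1), en N P (k + 1) * un N P (n - k) W y| ≤
              c * catalan (n + 1) * q ^ n := by
            refine (Finset.abs_sum_le_sum_abs _ _).trans ?_
            rw [cat_succ, Finset.mul_sum, Finset.sum_mul]
            refine Finset.sum_le_sum fun k hk => ?_
            have hk' : k ≤ n := Nat.lt_succ_iff.1 (Finset.mem_range.1 hk)
            rw [abs_mul]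
            have e1 := hE k (fun W hW => ih k hk' W hW)
            have e2 := ih (n - k) (Nat.sub_le _ _) W hW y
            calc |en N P (k + 1)| * |un N P (n - k) W y| ≤
                (c * catalan k * q ^ k) * (catalan (n - k) * q ^ (n - k)) :=
                  mul_le_mul e1 e2 (abs_nonneg _) (by positivity)
              _ = c * (catalan k * catalan (n - k)) * q ^ n := by
                  have : q ^ n = q ^ k * q ^ (n - k) := by rw [← pow_add]; congr 1; omega
                  rw [this]; ring
          have h3 : c * catalan n * q ^ n ≤ c * catalan (n + 1) * q ^ n := by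
            have := cat_mono n
            gcongr
          calc _ ≤ c * catalan (n + 1) * q ^ n + c * catalan (n + 1) * q ^ n :=
                add_le_add (h1.trans h3) h2
            _ = _ := by ring
        refine (Pool.Agent.H4R2.HD.BA.Gn_abs hd N _ _ hg x).trans (le_of_eq ?_)
        rw [hq, pow_succ]
        field_simp
  have keyg : ∀ n, ∀ W, Bd c W → ∀ y, |gn N P n W y| ≤ 2 * c * catalan (n + 1) * q ^ n := by
    intro n W hW y
    unfold gn
    refine (abs_add_le _ _).trans ?_
    have h1 : |-(W y * un N P n W y)| ≤ c * catalan n * q ^ n := by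
      rw [abs_neg, abs_mul, mul_assoc]
      exact mul_le_mul (hW y) (key n n le_rfl W hW y) (abs_nonneg _) hc
    have h2 : |∑ k ∈ Finset.range (n + 1), en N P (k + 1) * un N P (n - k) W y| ≤
        c * catalan (n + 1) * q ^ n := by
      refine (Finset.abs_sum_le_sum_abs _ _).trans ?_
      rw [cat_succ, Finset.mul_sum, Finset.sum_mul]
      refine Finset.sum_le_sum fun k hk => ?_
      have hk' : k ≤ n := Nat.lt_succ_iff.1 (Finset.mem_range.1 hk)
      rw [abs_mul]
      have e1 := hE k (key k k le_rfl)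
      have e2 := key n (n - k) (Nat.sub_le _ _) W hW y
      calc |en N P (k + 1)| * |un N P (n - k) W y| ≤
          (c * catalan k * q ^ k) * (catalan (n - k) * q ^ (n - k)) :=
            mul_le_mul e1 e2 (abs_nonneg _) (by positivity)
        _ = c * (catalan k * catalan (n - k)) * q ^ n := by
            have : q ^ n = q ^ k * q ^ (n - k) := by rw [← pow_add]; congr 1; omega
            rw [this]; ring
    have h3 : c * catalan n * q ^ n ≤ c * catalan (n + 1) * q ^ n := by
      have := cat_mono n
      gcongr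
    calc _ ≤ c * catalan (n + 1) * q ^ n + c * catalan (n + 1) * q ^ n :=
          add_le_add (h1.trans h3) h2
      _ = _ := by ring
  exact ⟨fun n => hE n (key n n le_rfl), fun W hW n x => ⟨key n n le_rfl W hW x, keyg n W hW x⟩⟩

/-- `-Δ` of a sum -/
theorem Lp_sum {d : ℕ} {ι : Type} (s : Finset ι) (f : ι → V d → ℝ) (x : V d) :
    Lp (fun y => ∑ n ∈ s, f n y) x = ∑ n ∈ s, Lp (f n) x := by
  unfold Lp
  rw [Finset.sum_sub_distrib, Finset.mul_sum]
  congr 1
  rw [Finset.sum_comm]
  refine Finset.sum_congr rfl fun i _ => ?_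
  rw [← Finset.sum_add_distrib]

theorem Lp_one {d : ℕ} (x : V d) : Lp (fun _ : V d => (1 : ℝ)) x = 0 := by
  unfold Lp
  simp
  ring

theorem Lp_un {d : ℕ} (hd : 1 ≤ d) (N : ℕ) (P : Measure (V d → ℝ)) (n : ℕ) (W : V d → ℝ)
    (x : V d) : Lp (un N P (n + 1) W) x = gn N P n W x - (Av^[N] (gn N P n W)) x := by
  rw [un_succ]
  exact Pool.Agent.H4R2.HD.BA.param hd N (gn N P n W) x

/-- the algebra of the double sums -/
theorem double (K : ℕ) (e u : ℕ → ℝ) :
    (∑ m ∈ Finset.range K, e (m + 1)) * (∑ j ∈ Finset.range (K + 1), u j) -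
      ∑ n ∈ Finset.range K, ∑ k ∈ Finset.range (n + 1), e (k + 1) * u (n - k) =
    ∑ p ∈ (Finset.range K ×ˢ Finset.range (K + 1)).filter (fun p => K ≤ p.1 + p.2),
      e (p.1 + 1) * u p.2 := by
  rw [Finset.sum_mul_sum, ← Finset.sum_product', sub_eq_iff_eq_add]
  rw [← Finset.sum_filter_add_sum_filter_not (Finset.range K ×ˢ Finset.range (K + 1))
    (fun p : ℕ × ℕ => K ≤ p.1 + p.2)]
  congr 1
  rw [Finset.sum_sigma']
  refine Finset.sum_bij' (fun p _ => (⟨p.1 + p.2, p.1⟩ : (_ : ℕ) × ℕ))
    (fun s _ => (s.2, s.1 - s.2)) ?_ ?_ ?_ ?_ ?_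
  · rintro ⟨a, b⟩ h
    simp only [Finset.mem_filter, Finset.mem_product, Finset.mem_range, Finset.mem_sigma] at h ⊢
    omega
  · rintro ⟨a, b⟩ h
    simp only [Finset.mem_filter, Finset.mem_product, Finset.mem_range, Finset.mem_sigma] at h ⊢
    omega
  · rintro ⟨a, b⟩ h
    simp
  · rintro ⟨a, b⟩ h
    simp only [Finset.mem_sigma, Finset.mem_range] at h
    have : b + (a - b) = a := by omega
    simp [this]
  · rintro ⟨a, b⟩ h
    simp

/-- geometric tails -/
theorem geo (q : ℝ) (hq : 0 ≤ q) (hq1 : 8 * q ≤ 1) (s : Finset ℕ) (K : ℕ) (hs : ∀ n ∈ s, K ≤ n) :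
    ∑ n ∈ s, (4 * q) ^ n ≤ 2 * (4 * q) ^ K := by
  have h4 : 4 * q ≤ 1 / 2 := by linarith
  have h40 : 0 ≤ 4 * q := by linarith
  obtain ⟨M, hM⟩ : ∃ M, ∀ n ∈ s, n < K + M := by
    obtain ⟨B, hB⟩ := s.bddAbove
    exact ⟨B + 1, fun n hn => by have := hB hn; omega⟩
  have h1 : s ⊆ (Finset.range M).map (addLeftEmbedding K) := by
    intro n hn
    rw [Finset.mem_map]
    exact ⟨n - K, Finset.mem_range.2 (by have := hM n hn; have := hs n hn; omega), by
      have := hs n hn
      simp only [addLeftEmbedding_apply]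
      omega⟩
  calc ∑ n ∈ s, (4 * q) ^ n ≤ ∑ n ∈ (Finset.range M).map (addLeftEmbedding K), (4 * q) ^ n :=
        Finset.sum_le_sum_of_subset_of_nonneg h1 fun _ _ _ => by positivity
    _ = (4 * q) ^ K * ∑ n ∈ Finset.range M, (4 * q) ^ n := by
        rw [Finset.sum_map, Finset.mul_sum]
        refine Finset.sum_congr rfl fun n _ => ?_
        rw [addLeftEmbedding_apply, pow_add]
    _ ≤ (4 * q) ^ K * 2 := by
        refine mul_le_mul_of_nonneg_left ?_ (by positivity)
        have h2 : ∑ n ∈ Finset.range M, (4 * q) ^ n ≤ ∑ n ∈ Finset.range M, (1 / 2 : ℝ) ^ n :=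
          Finset.sum_le_sum fun n _ => pow_le_pow_left₀ h40 h4 n
        have h3 : ∀ M : ℕ, ∑ n ∈ Finset.range M, (1 / 2 : ℝ) ^ n = 2 - 2 * (1 / 2) ^ M := by
          intro M
          induction M with
          | zero => simp
          | succ M ih => rw [Finset.sum_range_succ, ih, pow_succ]; ring
        rw [h3] at h2
        have : (0 : ℝ) ≤ 2 * (1 / 2) ^ M := by positivity
        linarith
    _ = 2 * (4 * q) ^ K := by ring

theorem res : S_RES := by
  intro d hd N K c P _ hc hP h8 W hW
  obtain ⟨bE, bU⟩ := bnd hd N c P hc hP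
  have hd' : (1 : ℝ) ≤ d := by exact_mod_cast hd
  set q : ℝ := c * N / d with hq
  have hq0 : 0 ≤ q := by positivity
  have hq8 : 8 * q ≤ 1 := by
    rw [hq]
    refine le_trans (le_of_eq ?_) h8
    ring
  have e8 : 8 * c * N / d = 8 * q := by rw [hq]; ring
  have e4 : 4 * c * N / d = 4 * q := by rw [hq]; ring
  rw [e8, e4]
  have bu : ∀ n x, |un N P n W x| ≤ (4 * q) ^ n := by
    intro n x
    refine (bU W hW n x).1.trans ?_
    rw [mul_pow]
    exact mul_le_mul_of_nonneg_right (cat_le n) (by positivity)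
  refine ⟨fun x => ?_, fun x => ?_⟩
  · unfold fi
    rw [Finset.sum_range_succ', un_zero, add_sub_cancel_right]
    refine (Finset.abs_sum_le_sum_abs _ _).trans ?_
    have h1 : ∑ n ∈ Finset.range K, |un N P (n + 1) W x| ≤
        ∑ n ∈ (Finset.range K).map (addRightEmbedding 1), (4 * q) ^ n := by
      rw [Finset.sum_map]
      exact Finset.sum_le_sum fun n _ => bu (n + 1) x
    refine h1.trans ?_
    refine (geo q hq0 hq8 _ 1 ?_).trans (le_of_eq ?_)
    · intro n hn
      rw [Finset.mem_map] at hn
      obtain ⟨m, _, rfl⟩ := hn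
      simp
    · rw [pow_one]; ring
  · -- the equation
    have hL : Lp (fi N K P W) x =
        ∑ n ∈ Finset.range K, gn N P n W x - ∑ n ∈ Finset.range K, (Av^[N] (gn N P n W)) x := by
      have h1 : fi N K P W = fun y => ∑ n ∈ Finset.range (K + 1), un N P n W y := rfl
      rw [h1, Lp_sum, Finset.sum_range_succ']
      have h2 : (un N P 0 W) = fun _ => (1 : ℝ) := by
        funext y; rw [un_zero]
      rw [h2, Lp_one, add_zero, ← Finset.sum_sub_distrib]
      exact Finset.sum_congr rfl fun n _ => Lp_un hd N P n W x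
    have hG : ∑ n ∈ Finset.range K, gn N P n W x =
        -(W x * ∑ n ∈ Finset.range K, un N P n W x) +
          ∑ n ∈ Finset.range K, ∑ k ∈ Finset.range (n + 1),
            en N P (k + 1) * un N P (n - k) W x := by
      unfold gn
      rw [Finset.sum_add_distrib, Finset.sum_neg_distrib, Finset.mul_sum]
    have hEs : Es N K P = ∑ m ∈ Finset.range K, en N P (m + 1) := by
      unfold Es
      rw [Finset.sum_range_succ']
      simp [en]
    have hdb := double K (en N P) (fun j => un N P j W x)
    rw [← hEs] at hdb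
    have hfi : fi N K P W x = ∑ j ∈ Finset.range (K + 1), un N P j W x := rfl
    rw [← hfi] at hdb
    have hfs : fi N K P W x = ∑ n ∈ Finset.range K, un N P n W x + un N P K W x := by
      rw [hfi, Finset.sum_range_succ]
    have hid : Lp (fi N K P W) x + (W x - Es N K P) * fi N K P W x =
        -(∑ n ∈ Finset.range K, (Av^[N] (gn N P n W)) x) + W x * un N P K W x -
          ∑ p ∈ (Finset.range K ×ˢ Finset.range (K + 1)).filter (fun p => K ≤ p.1 + p.2),
            en N P (p.1 + 1) * un N P p.2 W x := by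
      rw [hL, hG]
      linear_combination W x * hfs - hdb
    rw [hid]
    have t1 : |∑ n ∈ Finset.range K, (Av^[N] (gn N P n W)) x| ≤
        ∑ n ∈ Finset.range K, |(Av^[N] (gn N P n W)) x| := Finset.abs_sum_le_sum_abs _ _
    have t2 : |W x * un N P K W x| ≤ c * (4 * q) ^ K := by
      rw [abs_mul]
      exact mul_le_mul (hW x) (bu K x) (abs_nonneg _) hc
    have t3 : |∑ p ∈ (Finset.range K ×ˢ Finset.range (K + 1)).filter (fun p => K ≤ p.1 + p.2),
            en N P (p.1 + 1) * un N P p.2 W x| ≤ 8 * c * (4 * q) ^ K := by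
      refine (Finset.abs_sum_le_sum_abs _ _).trans ?_
      have h1 : ∀ p : ℕ × ℕ, |en N P (p.1 + 1) * un N P p.2 W x| ≤
          c * (catalan p.1 * catalan p.2 * q ^ (p.1 + p.2)) := by
        intro p
        rw [abs_mul]
        calc |en N P (p.1 + 1)| * |un N P p.2 W x| ≤
            (c * catalan p.1 * q ^ p.1) * (catalan p.2 * q ^ p.2) :=
              mul_le_mul (bE p.1) (bU W hW p.2 x).1 (abs_nonneg _) (by positivity)
          _ = _ := by rw [pow_add]; ring
      refine (Finset.sum_le_sum fun p _ => h1 p).trans ?_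
      rw [← Finset.mul_sum]
      -- regroup by p.1 + p.2
      have h2 : ∑ p ∈ (Finset.range K ×ˢ Finset.range (K + 1)).filter (fun p => K ≤ p.1 + p.2),
          ((catalan p.1 : ℝ) * catalan p.2 * q ^ (p.1 + p.2)) ≤
          ∑ s ∈ Finset.Ico K (2 * K + 1), (catalan (s + 1) : ℝ) * q ^ s := by
        have h3 : ∀ s, (catalan (s + 1) : ℝ) * q ^ s =
            ∑ k ∈ Finset.range (s + 1), (catalan k : ℝ) * catalan (s - k) * q ^ s := by
          intro s
          rw [cat_succ, Finset.sum_mul]
        rw [Finset.sum_congr rfl fun s _ => h3 s, Finset.sum_sigma']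
        have h4 : ∑ p ∈ (Finset.range K ×ˢ Finset.range (K + 1)).filter (fun p => K ≤ p.1 + p.2),
            ((catalan p.1 : ℝ) * catalan p.2 * q ^ (p.1 + p.2)) =
            ∑ s ∈ ((Finset.range K ×ˢ Finset.range (K + 1)).filter
              (fun p => K ≤ p.1 + p.2)).image (fun p => (⟨p.1 + p.2, p.1⟩ : (_ : ℕ) × ℕ)),
              (catalan s.2 : ℝ) * catalan (s.1 - s.2) * q ^ s.1 := by
          rw [Finset.sum_image]
          · refine Finset.sum_congr rfl fun p _ => ?_
            have : p.1 + p.2 - p.1 = p.2 := by omega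
            simp only [this]
          · rintro ⟨a, b⟩ _ ⟨a', b'⟩ _ h
            simp only [Sigma.mk.injEq, heq_eq_eq] at h
            obtain ⟨h1, h2⟩ := h
            rw [Prod.mk.injEq]
            omega
        rw [h4]
        refine Finset.sum_le_sum_of_subset_of_nonneg ?_ fun _ _ _ => by positivity
        intro s hs
        rw [Finset.mem_image] at hs
        obtain ⟨⟨a, b⟩, hp, rfl⟩ := hs
        simp only [Finset.mem_filter, Finset.mem_product, Finset.mem_range] at hp
        simp only [Finset.mem_sigma, Finset.mem_Ico, Finset.mem_range]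
        omega
      have h5 : ∑ s ∈ Finset.Ico K (2 * K + 1), (catalan (s + 1) : ℝ) * q ^ s ≤
          4 * ∑ s ∈ Finset.Ico K (2 * K + 1), (4 * q) ^ s := by
        rw [Finset.mul_sum]
        refine Finset.sum_le_sum fun s _ => ?_
        have := cat_le (s + 1)
        calc (catalan (s + 1) : ℝ) * q ^ s ≤ 4 ^ (s + 1) * q ^ s :=
              mul_le_mul_of_nonneg_right this (by positivity)
          _ = 4 * (4 * q) ^ s := by rw [mul_pow, pow_succ]; ring
      have h6 := geo q hq0 hq8 (Finset.Ico K (2 * K + 1)) K fun n hn => (Finset.mem_Ico.1 hn).1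
      have h7 := h2.trans (h5.trans (mul_le_mul_of_nonneg_left h6 (by norm_num)))
      calc c * _ ≤ c * (4 * (2 * (4 * q) ^ K)) := mul_le_mul_of_nonneg_left h7 hc
        _ = 8 * c * (4 * q) ^ K := by ring
    have u1 := abs_le.1 t1
    have u2 := abs_le.1 t2
    have u3 := abs_le.1 t3
    rw [abs_le]
    constructor <;> linarith [u1.1, u1.2, u2.1, u2.2, u3.1, u3.2]

end Pool.Agent.Y661.HE.BND
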