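import Pool.Agent.Y661.HE.Core
import Pool.Agent.Y661.HE.Stm2

/-! States near the effective band edge are spread out -/

set_option autoImplicit false

open scoped BigOperators ENNReal
open MeasureTheory Filter

namespace Pool.Agent.Y661.HE.Spr

open Pool.Agent.H12R2.And (V ee Q card_Q Q_mono Q_trans mem_Q)
open Pool.Agent.H4R2.HD (Av Gn ind)
open Core (GE)

/-- the spreading bound -/
noncomputable def sb (d : ℕ) (q : ℝ) : ℝ := (60 * q * d * Real.log (2 / q)) ^ ((d : ℝ) / 2)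

/-- `u` is an eigenfunction of `-Δ + W` -/
def Eig {d : ℕ} (W : V d → ℝ) (E' : ℝ) (u : V d → ℂ) : Prop :=
  (Summable fun x => ‖u x‖ ^ 2) ∧
  ∀ x, 2 * (d : ℂ) * u x - ∑ i : Fin d, (u (x + ee i) + u (x - ee i)) + (W x : ℂ) * u x =
    (E' : ℂ) * u x

theorem low (hRES : S_RES) (hWLK : S_WLK) (hEIG : S_EIG) (hPAR : S_PAR) {d : ℕ} (hd : 10 ≤ d)
    (N : ℕ) (c r : ℝ) (P : Measure (V d → ℝ)) [IsProbabilityMeasure P] (hc : 0 ≤ c)
    (hP : ∀ᵐ W ∂P, Bd c W) (h16 : 16 * c * N / d ≤ 1)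
    (h9 : 9 * c * (4 * c * N / d) ^ N ≤ r / 8) (hr : 0 < r) (W : V d → ℝ) (hW : Bd c W)
    (z : V d) (R : ℕ) (hG : ∀ x ∈ Q z R, GE N P (r / (8 * N)) W x) (q : ℝ) (hrq : r ≤ q)
    (hq1 : q ≤ 1) (hR : 3 * d / q ≤ R) (E' : ℝ) (hE' : E' ≤ Es N N P + q) (u : V d → ℂ)
    (hu : Eig W E' u) : ‖u z‖ ^ 2 ≤ sb d q * ∑' x, ‖u x‖ ^ 2 := by
  have hd1 : 1 ≤ d := by omega
  have hq0 : 0 < q := lt_of_lt_of_le hr hrq
  have hd' : (10 : ℝ) ≤ d := by exact_mod_cast hd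
  have hsum : 0 ≤ ∑' x, ‖u x‖ ^ 2 := tsum_nonneg fun x => by positivity
  have hlog : 0 < Real.log (2 / q) := Real.log_pos (by rw [lt_div_iff₀ hq0]; linarith)
  rcases lt_or_ge (60 * q * d * Real.log (2 / q)) 1 with hy | hy
  · obtain ⟨m, n, hm, hn, h1, h2⟩ := hPAR d q hd hq0 hq1 hy
    obtain ⟨f1, f2⟩ := Core.sup hRES hd1 N c r P hc hP h16 h9 hr.le W hW
    have hnR : n ≤ R := by exact_mod_cast hn.trans hR
    have hb : (0 : ℝ) < 12 * d + 4 := by positivity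
    have k1 := hWLK hd1 (fi N N P W) W (Es N N P) (r / 2) (12 * d + 4) z R n m f1 (by linarith)
      (by linarith) (fun x hx => (f2 x (hG x hx)).trans (le_of_eq (by ring))) le_rfl hnR hm
    have k2 := hEIG W (Es N N P - r / 2) (12 * d + 4) E' z n u hb.ne' hu.1 hu.2
    have h3 : (1 - 2 * q / (12 * (d : ℝ) + 4)) ^ n ≤
        (1 - (E' - (Es N N P - r / 2)) / (12 * d + 4)) ^ n := by
      apply pow_le_pow_left₀
      · rw [sub_nonneg, div_le_one hb]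
        linarith
      · have : (E' - (Es N N P - r / 2)) / (12 * d + 4) ≤ 2 * q / (12 * (d : ℝ) + 4) := by
          apply div_le_div_of_nonneg_right _ hb.le
          linarith
        linarith
    have h4 : (1 / 2 : ℝ) ^ 2 ≤ ((1 - (E' - (Es N N P - r / 2)) / (12 * d + 4)) ^ n) ^ 2 :=
      pow_le_pow_left₀ (by norm_num) (h2.trans h3) 2
    have h5 : ‖u z‖ ^ 2 * (1 / 2 : ℝ) ^ 2 ≤ (1 / 4 * sb d q) * ∑' x, ‖u x‖ ^ 2 := by
      refine (mul_le_mul_of_nonneg_left h4 (by positivity)).trans (k2.trans ?_)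
      refine mul_le_mul_of_nonneg_right (k1.trans h1) hsum
    nlinarith
  · have h1 : 1 ≤ sb d q := Real.one_le_rpow hy (by positivity)
    have h2 : ‖u z‖ ^ 2 ≤ ∑' x, ‖u x‖ ^ 2 :=
      hu.1.le_tsum z fun x _ => by positivity
    nlinarith

/-- the sign of a site -/
noncomputable def sg {d : ℕ} (x : V d) : ℂ := ∏ i : Fin d, ((-1 : ℂ)) ^ (x i)

theorem sg_ne {d : ℕ} (x : V d) : sg x ≠ 0 := by
  unfold sg
  exact Finset.prod_ne_zero_iff.2 fun i _ => zpow_ne_zero _ (by norm_num)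

theorem norm_sg {d : ℕ} (x : V d) : ‖sg x‖ = 1 := by
  unfold sg
  rw [norm_prod]
  refine Finset.prod_eq_one fun i _ => ?_
  rw [norm_zpow, norm_neg, norm_one, one_zpow]

theorem sg_add {d : ℕ} (x : V d) (i : Fin d) : sg (x + ee i) = -sg x := by
  unfold sg
  rw [← Finset.mul_prod_erase Finset.univ _ (Finset.mem_univ i),
    ← Finset.mul_prod_erase Finset.univ (fun j => ((-1 : ℂ)) ^ (x j)) (Finset.mem_univ i)]
  have h1 : ∏ j ∈ Finset.univ.erase i, ((-1 : ℂ)) ^ ((x + ee i) j) =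
      ∏ j ∈ Finset.univ.erase i, ((-1 : ℂ)) ^ (x j) := by
    refine Finset.prod_congr rfl fun j hj => ?_
    have e1 : (ee i : V d) j = 0 := Pi.single_eq_of_ne (Finset.ne_of_mem_erase hj) _
    rw [Pi.add_apply, e1, add_zero]
  have e2 : (ee i : V d) i = 1 := Pi.single_eq_same i 1
  rw [h1, Pi.add_apply, e2, zpow_add₀ (by norm_num), zpow_one]
  ring

theorem sg_sub {d : ℕ} (x : V d) (i : Fin d) : sg (x - ee i) = -sg x := by
  have h := sg_add (x - ee i) i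
  rw [sub_add_cancel] at h
  rw [h, neg_neg]

theorem stag {d : ℕ} (W : V d → ℝ) (E' : ℝ) (u : V d → ℂ) (hu : Eig W E' u) :
    Eig (fun x => -W x) (4 * d - E') (fun x => sg x * u x) := by
  obtain ⟨h1, h2⟩ := hu
  refine ⟨?_, fun x => ?_⟩
  · simp only [norm_mul, norm_sg, one_mul]
    exact h1
  · have h3 := h2 x
    have h4 : ∑ i : Fin d, (sg (x + ee i) * u (x + ee i) + sg (x - ee i) * u (x - ee i)) =
        -(sg x * ∑ i : Fin d, (u (x + ee i) + u (x - ee i))) := by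
      rw [Finset.mul_sum, ← Finset.sum_neg_distrib]
      refine Finset.sum_congr rfl fun i _ => ?_
      rw [sg_add, sg_sub]
      ring
    rw [h4]
    push_cast
    linear_combination -sg x * h3

theorem upp (hRES : S_RES) (hWLK : S_WLK) (hEIG : S_EIG) (hPAR : S_PAR) {d : ℕ} (hd : 10 ≤ d)
    (N : ℕ) (c r : ℝ) (P : Measure (V d → ℝ)) [IsProbabilityMeasure P] (hc : 0 ≤ c)
    (hP : ∀ᵐ W ∂P, Bd c W) (h16 : 16 * c * N / d ≤ 1)
    (h9 : 9 * c * (4 * c * N / d) ^ N ≤ r / 8) (hr : 0 < r) (W : V d → ℝ) (hW : Bd c W)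
    (z : V d) (R : ℕ) (hG : ∀ x ∈ Q z R, GE N P (r / (8 * N)) (fun x => -W x) x) (q : ℝ)
    (hrq : r ≤ q) (hq1 : q ≤ 1) (hR : 3 * d / q ≤ R) (E' : ℝ) (hE' : 4 * d - Es N N P - q ≤ E')
    (u : V d → ℂ) (hu : Eig W E' u) : ‖u z‖ ^ 2 ≤ sb d q * ∑' x, ‖u x‖ ^ 2 := by
  have h := low hRES hWLK hEIG hPAR hd N c r P hc hP h16 h9 hr (fun x => -W x)
    (fun x => by rw [abs_neg]; exact hW x) z R hG q hrq hq1 hR (4 * d - E') (by linarith)
    (fun x => sg x * u x) (stag W E' u hu)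
  simp only [norm_mul, norm_sg, one_mul] at h
  exact h

end Pool.Agent.Y661.HE.Spr
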