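import Pool.Agent.Y661.HE.FinB
import Pool.Agent.Y661.HE.Spr

/-! The Bernoulli law, with the spreading of the states inside -/

set_option autoImplicit false

open scoped BigOperators ENNReal
open MeasureTheory Filter

namespace Pool.Agent.Y661.HE.FinB2

open Pool.Agent.H12R2.And (V ee Q card_Q Q_mono Q_trans pot PP Dep Good IsH Rz)
open Core (GE Loc)
open Spr (Eig sb)
open FinB

/-- the states near both edges are spread out over the box of radius `M` -/
def Spread {d : ℕ} (W : V d → ℝ) (E r : ℝ) (M : ℕ) : Prop :=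
  ∀ q : ℝ, r ≤ q → q ≤ 1 → ∀ z ∈ Q (0 : V d) M, ∀ (E' : ℝ) (u : V d → ℂ), Eig W E' u →
    (E' ≤ E + q ∨ 4 * d - E - q ≤ E') → ‖u z‖ ^ 2 ≤ sb d q * ∑' x, ‖u x‖ ^ 2

/-- the effective band edge -/
noncomputable def Eb (β : ℝ) (d : ℕ) : ℝ := Es (NN β d) (NN β d) (PI d mB)

theorem fin2 (hRES : S_RES) (hPRB : S_PRB) (hLOC : S_LOC) (hLOW : S_LOW) (hUPP : S_UPP)
    (hDEC : S_DEC) (hEXP : S_EXP) (hA1 : S_AS1) (hA2 : S_AS2) (hA3 : S_AS3) (hA5 : S_AS5)
    (hA6 : S_AS6) (hA7 : S_AS7) (hWLK : S_WLK) (hEIG : S_EIG) (hPAR : S_PAR) (β : ℝ)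
    (hβ : 0 < β) (hβ2 : β < 1 / 2) :
    ∀ᶠ d : ℕ in atTop,
      |Eb β d + 1 / (2 * d) * (1 + 1 / (2 * d))| ≤ (d : ℝ) ^ (-(9 / 4) : ℝ) ∧
      (PP d).real {ω | ¬ ((∀ R : ℕ, Real.exp (2 * (d : ℝ) ^ β) ≤ R →
        (R : ℝ) ≤ Real.exp (Real.exp ((d : ℝ) ^ β)) → Loc (pot ω) R (Eb β d) (rr β d)) ∧
        Spread (pot ω) (Eb β d) (rr β d) ⌊Real.exp (Real.exp ((d : ℝ) ^ β)) / 2⌋₊)} ≤
          Real.exp (-Real.exp ((d : ℝ) ^ β)) ∧
      ∃ S : Set ℝ, MeasurableSet S ∧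
      volume ((Set.Ioo (-1) (Eb β d - rr β d) ∪
        Set.Ioo (4 * d - Eb β d + rr β d) (4 * d + 1)) \ S) ≤
        ENNReal.ofReal (Real.exp (-Real.exp ((d : ℝ) ^ β))) ∧
      ∀ᵐ ω ∂(PP d), ∀ (H : lp (fun _ : V d => ℂ) 2 →L[ℂ] lp (fun _ : V d => ℂ) 2), IsH ω H →
        ∀ (ψ : lp (fun _ : V d => ℂ) 2) (μ : Measure ℝ), IsFiniteMeasure μ →
        (∀ z : ℂ, z.im ≠ 0 → (∫ x, ((x : ℂ) - z)⁻¹ ∂μ) = inner ℂ ψ (Rz H z ψ)) →
        (μ.restrict S) ⟂ₘ volume := by
  filter_upwards [hA1 β hβ hβ2, hA2 β hβ hβ2, hA3 β hβ hβ2, hA5 β hβ hβ2, hA6 β β hβ hβ2 hβ hβ2,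
    Core.energy hRES hPRB hLOW hUPP hEXP hA1 hA5 hA6 hA7 β hβ hβ2 0, eventually_ge_atTop 10]
    with d a1 a2 a3 a5 a6 aE hd
  have hd1 : 1 ≤ d := by omega
  have hd' : (10 : ℝ) ≤ d := by exact_mod_cast hd
  have h1d : (1 : ℝ) ≤ (d : ℝ) ^ (1 / 4 : ℝ) := Real.one_le_rpow (by linarith) (by norm_num)
  obtain ⟨b1, b2, b3⟩ := a1 1 one_pos h1d
  obtain ⟨c1, c2, c3, c4, c5, c6, c7⟩ := a2
  obtain ⟨e1, e2, e3, e4⟩ := a5
  obtain ⟨R6, r1, r2, -, -⟩ := a6
  have kE := aE 1 (by simp) h1d mB mB_le mB_neg 1 mB_sq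
  set N := NN β d with hN
  set r := rr β d with hr
  have hEE : Eb β d = Es N N (PI d mB) := rfl
  rw [hEE]
  set E := Es N N (PI d mB) with hE
  set η : ℝ := r / (8 * N) with hη
  set L0 := LL β d with hL0
  set X : ℝ := Real.exp (Real.exp ((d : ℝ) ^ β)) with hX
  have hr0 : 0 < r := Real.exp_pos _
  have hr1 : r ≤ 1 / 2 := by
    have h1 : (1 : ℝ) ≤ (d : ℝ) ^ β := Real.one_le_rpow (by linarith) hβ.le
    have h2 : r ≤ Real.exp (-1) := by
      rw [hr]
      unfold rr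
      exact Real.exp_le_exp.2 (by linarith)
    have h3 : Real.exp (-1) ≤ 1 / 2 := by
      rw [Real.exp_neg, inv_le_comm₀ (Real.exp_pos _) (by norm_num)]
      have := Real.add_one_le_exp (1 : ℝ)
      norm_num at this ⊢
      linarith
    linarith
  have hN0 : (0 : ℝ) < N := by
    have : 0 < N := by omega
    exact_mod_cast this
  have hη0 : 0 ≤ η := by positivity
  rw [one_pow, one_mul] at kE
  have hE2 : |E| ≤ 1 / 4 := by
    have h1 : (d : ℝ) ^ (-(9 / 4) : ℝ) ≤ 1 / 10 := by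
      calc (d : ℝ) ^ (-(9 / 4) : ℝ) ≤ (d : ℝ) ^ (-1 : ℝ) :=
            Real.rpow_le_rpow_of_exponent_le (by linarith) (by norm_num)
        _ = 1 / d := by rw [Real.rpow_neg_one, one_div]
        _ ≤ 1 / 10 := one_div_le_one_div_of_le (by norm_num) hd'
    have h2 : 1 / (2 * (d : ℝ)) ≤ 1 / 20 := one_div_le_one_div_of_le (by norm_num) (by linarith)
    have h3 : (0 : ℝ) < 1 / (2 * d) := by positivity
    have h4 := abs_le.1 kE
    have h5 : 1 / (2 * (d : ℝ)) * (1 + 1 / (2 * d)) ≤ 1 / 20 * (1 + 1 / 20) := by gcongr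
    have h6 : (0 : ℝ) < 1 / (2 * (d : ℝ)) * (1 + 1 / (2 * d)) := by positivity
    rw [abs_le]
    constructor <;> linarith [h4.1, h4.2]
  have h8 : 8 * 1 * (N : ℝ) / d ≤ 1 := by
    have : 8 * 1 * (N : ℝ) / d = (16 * 1 * N / d) / 2 := by ring
    rw [this]; linarith
  have hprE : pr d N 1 η ≤ Real.exp (-Real.exp (2 * (d : ℝ) ^ β)) := b3
  have hpr0 : 0 ≤ pr d N 1 η := by unfold pr; positivity
  -- the probability of the good event in a box
  have hbox : ∀ (a : V d) (M : ℕ), M ≤ L0 →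
      (PP d).real {ω | ¬ ∀ s : ℝ, s = 1 ∨ s = -1 → ∀ x ∈ Q a M,
        GE N (PI d mB) η (fun y => s * pot ω y) x} ≤ ((L0 : ℝ) ^ (2 * d + 1))⁻¹ := by
    intro a M hM
    have hs : ∀ s : ℝ, s = 1 ∨ s = -1 →
        (PP d).real {ω | ¬ ∀ x ∈ Q a M, GE N (PI d mB) η (fun y => s * pot ω y) x} ≤
        (2 * (L0 : ℝ) + 1) ^ d * Real.exp (-Real.exp (2 * (d : ℝ) ^ β)) := by
      intro s hs
      refine (map_real s hs {W | ¬ ∀ x ∈ Q a M, GE N (PI d mB) η W x}).trans ?_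
      refine (Core.box hPRB hd1 N 1 η mB one_pos hη0 mB_le h8 _).trans ?_
      rw [card_Q]
      have h2 : (M : ℝ) ≤ (L0 : ℝ) := by exact_mod_cast hM
      push_cast
      gcongr
    have hsub : {ω | ¬ ∀ s : ℝ, s = 1 ∨ s = -1 → ∀ x ∈ Q a M,
        GE N (PI d mB) η (fun y => s * pot ω y) x} ⊆
        {ω | ¬ ∀ x ∈ Q a M, GE N (PI d mB) η (fun y => (1 : ℝ) * pot ω y) x} ∪
        {ω | ¬ ∀ x ∈ Q a M, GE N (PI d mB) η (fun y => (-1 : ℝ) * pot ω y) x} := by
      intro ω hω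
      by_contra hcon
      rw [Set.mem_union, not_or] at hcon
      obtain ⟨p1, p2⟩ := hcon
      apply hω
      rintro s (rfl | rfl)
      · exact not_not.1 p1
      · exact not_not.1 p2
    refine (measureReal_mono hsub (measure_ne_top _ _)).trans
      ((measureReal_union_le _ _).trans ?_)
    refine (add_le_add (hs 1 (Or.inl rfl)) (hs (-1) (Or.inr rfl))).trans ?_
    refine le_trans (le_of_eq ?_) c7
    ring
  have hX0 : 0 < X := Real.exp_pos _
  have hL0pos : (0 : ℝ) < L0 := by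
    have : 0 < L0 := by rw [hL0]; unfold LL; positivity
    exact_mod_cast this
  have hXL : 2 * X ≤ L0 := by
    have h1 : Real.exp (-Real.exp ((d : ℝ) ^ β)) = X⁻¹ := by rw [hX, Real.exp_neg]
    rw [h1] at c6
    have h2 : X⁻¹ / 2 = (2 * X)⁻¹ := by rw [mul_inv]; ring
    rw [h2] at c6
    exact (inv_le_inv₀ hL0pos (by positivity)).1 c6
  set RM : ℕ := ⌊X⌋₊ with hRM
  have hRML : RM ≤ L0 := by
    have h1 : (RM : ℝ) ≤ X := Nat.floor_le hX0.le
    have h2 : (RM : ℝ) ≤ L0 := by linarith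
    exact_mod_cast h2
  refine ⟨kE, ?_, ?_⟩
  · -- boxes and eigenfunctions
    have hsub : {ω : V d → Bool | ¬ ((∀ R : ℕ, Real.exp (2 * (d : ℝ) ^ β) ≤ R →
        (R : ℝ) ≤ X → Loc (pot ω) R E r) ∧ Spread (pot ω) E r ⌊X / 2⌋₊)} ⊆
        {ω | ¬ ∀ s : ℝ, s = 1 ∨ s = -1 → ∀ x ∈ Q (0 : V d) RM,
          GE N (PI d mB) η (fun y => s * pot ω y) x} := by
      intro ω hω hgood
      apply hω
      have hae := Core.ae_Bd (d := d) mB 1 mB_le
      have hBd : Bd 1 (pot ω) := by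
        have := bd_s 1 (Or.inl rfl) ω
        simpa only [one_mul] using this
      have hG1 : ∀ x ∈ Q (0 : V d) RM, GE N (PI d mB) η (pot ω) x := by
        intro x hx
        have := hgood 1 (Or.inl rfl) x hx
        simpa only [one_mul] using this
      have hG2 : ∀ x ∈ Q (0 : V d) RM, GE N (PI d mB) η (fun y => -pot ω y) x := by
        intro x hx
        have := hgood (-1) (Or.inr rfl) x hx
        simpa only [neg_one_mul] using this
      constructor
      · intro R hR1 hR2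
        refine Core.loc_of hRES hLOW hUPP hd1 N 1 r (PI d mB) zero_le_one hae b1 b2 hr0.le
          (pot ω) hBd R ?_ fun x hx => hG1 x (Q_mono (Nat.le_floor hR2) hx)
        rw [div_le_iff₀ (by positivity)]
        have f1 : 36 * d * Real.exp ((d : ℝ) ^ β) ≤ R := e2.trans hR1
        have f2 : r * Real.exp ((d : ℝ) ^ β) = 1 := by
          rw [hr]
          unfold rr
          rw [← Real.exp_add, neg_add_cancel, Real.exp_zero]
        have f3 : r * (36 * d * Real.exp ((d : ℝ) ^ β)) ≤ r * R :=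
          mul_le_mul_of_nonneg_left f1 hr0.le
        have f4 : r * (36 * d * Real.exp ((d : ℝ) ^ β)) = 36 * d := by
          linear_combination 36 * d * f2
        nlinarith
      · intro q hq hq1 z hz E' u hu hE'
        have hq0 : 0 < q := lt_of_lt_of_le hr0 hq
        have hRb : 3 * (d : ℝ) / q ≤ (⌊X / 2⌋₊ : ℝ) := by
          have g1 : 3 * (d : ℝ) / q ≤ 3 * d * Real.exp ((d : ℝ) ^ β) := by
            rw [div_le_iff₀ hq0]
            have g2 : 1 ≤ Real.exp ((d : ℝ) ^ β) * q := by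
              have g3 : Real.exp ((d : ℝ) ^ β) * r = 1 := by
                rw [hr]
                unfold rr
                rw [← Real.exp_add, add_neg_cancel, Real.exp_zero]
              rw [← g3]
              exact mul_le_mul_of_nonneg_left hq (Real.exp_pos _).le
            nlinarith
          have g4 : 12 * (3 * d * Real.exp ((d : ℝ) ^ β)) ≤ X := by
            have : Real.exp (2 * (d : ℝ) ^ β) ≤ X := r1.trans r2
            linarith
          have g5 : X / 2 < (⌊X / 2⌋₊ : ℝ) + 1 := Nat.lt_floor_add_one _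
          have g6 : (30 : ℝ) ≤ 3 * d * Real.exp ((d : ℝ) ^ β) := by
            have : (1 : ℝ) ≤ Real.exp ((d : ℝ) ^ β) := Real.one_le_exp (by positivity)
            nlinarith
          linarith
        have hsubQ : Q z ⌊X / 2⌋₊ ⊆ Q (0 : V d) RM := by
          intro x hx
          refine Q_mono ?_ (Q_trans hz hx)
          have g1 : ((⌊X / 2⌋₊ : ℕ) : ℝ) ≤ X / 2 := Nat.floor_le (by positivity)
          apply Nat.le_floor
          push_cast
          linarith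
        rcases hE' with hE' | hE'
        · exact Spr.low hRES hWLK hEIG hPAR hd N 1 r (PI d mB) zero_le_one hae b1 b2 hr0
            (pot ω) hBd z ⌊X / 2⌋₊ (fun x hx => hG1 x (hsubQ hx)) q hq hq1 hRb E' hE' u hu
        · exact Spr.upp hRES hWLK hEIG hPAR hd N 1 r (PI d mB) zero_le_one hae b1 b2 hr0
            (pot ω) hBd z ⌊X / 2⌋₊ (fun x hx => hG2 x (hsubQ hx)) q hq hq1 hRb E' hE' u hu
    refine (measureReal_mono hsub (measure_ne_top _ _)).trans ((hbox 0 RM hRML).trans ?_)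
    have h1 : ((L0 : ℝ) ^ (2 * d + 1))⁻¹ ≤ (L0 : ℝ)⁻¹ := by
      apply inv_anti₀ hL0pos
      have hL1 : (1 : ℝ) ≤ L0 := by
        have : 1 ≤ L0 := by exact_mod_cast hL0pos
        exact_mod_cast this
      exact le_self_pow₀ hL1 (by omega)
    refine h1.trans (c6.trans ?_)
    have := Real.exp_pos (-Real.exp ((d : ℝ) ^ β))
    linarith
  · -- the engine
    have hP : ∀ a : V d, (PP d).real {ω | ¬ J N η L0 ω a} ≤ ((L0 : ℝ) ^ (2 * d + 1))⁻¹ :=
      fun a => hbox a (L0 - (N + 1) * N) (Nat.sub_le _ _)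
    set B : Set ℝ := Set.Ioo (-1) (E - r) ∪ Set.Ioo (4 * d - E + r) (4 * d + 1) with hB
    have hgood : ∀ E' ∈ B, ∀ (ω : V d → Bool) (a : V d), J N η L0 ω a →
        Good ω E' L0 (((L0 : ℝ) ^ (4 * (3 * d + 4) + 2 * d + 2))⁻¹) a := by
      intro E' hE' ω a hJ
      have hE'' : E' ≤ -(-E + r / 2) - r / 2 ∨ 4 * d + (-E + r / 2) + r / 2 ≤ E' := by
        rcases hE' with h | h
        · left; linarith [h.2]
        · right; linarith [h.1]
      have hab := abs_le.1 hE2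
      refine (hDEC hd1 ω a (-E + r / 2) (r / 2) (L0 - (N + 1) * N) L0
        (fun s => fi N N (PI d mB) (fun y => s * pot ω y)) (by linarith) (by linarith)
        (by rw [abs_le]; constructor <;> linarith [hab.1, hab.2]) (Nat.sub_le _ _) ?_ E' hE'').mono a3
      intro s hs
      obtain ⟨f1, f2⟩ := Core.sup hRES hd1 N 1 r (PI d mB) zero_le_one (Core.ae_Bd mB 1 mB_le) b1 b2
        hr0.le (fun y => s * pot ω y) (bd_s s hs ω)
      refine ⟨f1, fun x hx => ?_⟩
      have f3 := abs_le.1 (f2 x (hJ s hs x hx))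
      have f4 := (f1 x).1
      unfold Lp at f3
      nlinarith [f3.1, f3.2]
    have hBm : MeasurableSet B := measurableSet_Ioo.union measurableSet_Ioo
    have hBb : B ⊆ Set.Ioc (-(4 * d + 2) : ℝ) (4 * d + 2) := by
      have hab := abs_le.1 hE2
      rintro E' (hE' | hE')
      · exact ⟨by linarith [hE'.1], by linarith [hE'.2, hab.2]⟩
      · exact ⟨by linarith [hE'.1, hab.2], by linarith [hE'.2]⟩
    have hmain := Pool.Agent.H4R2.HD.engine (by omega : 2 ≤ d) (fun a => dep hLOC N η L0 c5 a)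
      (Nat.one_le_iff_ne_zero.2 (by rw [hL0]; unfold LL; positivity)) c1 c2 c4 hP hBm hBb hgood
    refine ⟨B ∩ Pool.Agent.H12R2.And.XX d (3 * d + 4) L0,
      hBm.inter (Pool.Agent.H12R2.And.measurableSet_XX _ _), ?_, hmain⟩
    have hsub : B \ (B ∩ Pool.Agent.H12R2.And.XX d (3 * d + 4) L0) ⊆
        (Pool.Agent.H12R2.And.XX d (3 * d + 4) L0)ᶜ := by
      rintro E' ⟨h1, h2⟩ h3
      exact h2 ⟨h1, h3⟩
    refine (measure_mono hsub).trans ((Pool.Agent.H12R2.And.volume_compl_XX rfl c3).trans ?_)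
    apply ENNReal.ofReal_le_ofReal
    refine c6.trans ?_
    have := Real.exp_pos (-Real.exp ((d : ℝ) ^ β))
    linarith

end Pool.Agent.Y661.HE.FinB2
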