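import Pool.Agent.Results.MP_d0f69c_mp.HighDimension
import Pool.Agent.Y661.HE.FinB2

/-! Translation of the Bernoulli theorem -/

set_option autoImplicit false

open scoped BigOperators ENNReal
open MeasureTheory Filter

namespace Pool.Agent.Y661.HE.ResB

open Pool.Agent.Results.MP_d0f69c_mp.HighDimension
open Pool.Agent.H12R2.And (V ee Q mem_Q pot PP)
open Core (Loc)
open Spr (Eig sb)
open FinB2 (Spread)

/-- the box `|x| ≤ R` -/
noncomputable def box (d R : ℕ) : Finset (Fin d → ℤ) :=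
  Finset.Icc (fun _ => -(R : ℤ)) (fun _ => (R : ℤ))

/-- the lowest eigenvalue of the operator restricted to the box `|x| ≤ R` -/
noncomputable def ground {d : ℕ} (ω : (Fin d → ℤ) → Bool) (R : ℕ) : ℝ :=
  sInf {t : ℝ | ∃ g : (Fin d → ℤ) → ℂ, (∀ x, x ∉ box d R → g x = 0) ∧
    0 < ∑ x ∈ box d R, ‖g x‖ ^ 2 ∧
    t * ∑ x ∈ box d R, ‖g x‖ ^ 2 = (∑ x ∈ box d R, (starRingEnd ℂ) (g x) * act ω g x).re}

theorem box_eq (d R : ℕ) : box d R = Q (0 : V d) R := by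
  unfold box Q
  congr 1
  · funext i; simp
  · funext i; simp

theorem act_eq {d : ℕ} (ω : V d → Bool) (u : V d → ℂ) (x : V d) :
    act ω u x = 2 * (d : ℂ) * u x - ∑ i : Fin d, (u (x + ee i) + u (x - ee i)) +
      (pot ω x : ℂ) * u x := by
  have h1 : ∑ i : Fin d, ((u (x + Pi.single i 1) - u x) + (u (x - Pi.single i 1) - u x)) =
      ∑ i : Fin d, (u (x + ee i) + u (x - ee i)) - 2 * (d : ℂ) * u x := by
    have h2 : (2 * (d : ℂ)) * u x = ∑ _i : Fin d, 2 * u x := by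
      rw [Finset.sum_const, Finset.card_univ, Fintype.card_fin, nsmul_eq_mul]
      ring
    rw [h2, ← Finset.sum_sub_distrib]
    refine Finset.sum_congr rfl fun i _ => ?_
    ring
  unfold act
  rw [h1]
  unfold pot
  split_ifs <;> push_cast <;> ring

theorem form_eq {d : ℕ} (ω : V d → Bool) (g : V d → ℂ) (x : V d) :
    ((starRingEnd ℂ) (g x) * act ω g x).re =
      (g x).re * (Lp (fun y => (g y).re) x + pot ω x * (g x).re) +
      (g x).im * (Lp (fun y => (g y).im) x + pot ω x * (g x).im) := by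
  rw [act_eq]
  unfold Lp
  simp only [Complex.mul_re, Complex.conj_re, Complex.conj_im, Complex.add_re, Complex.add_im,
    Complex.sub_re, Complex.sub_im, Complex.mul_im, Complex.ofReal_re, Complex.ofReal_im,
    Complex.re_sum, Complex.im_sum, Complex.natCast_re, Complex.natCast_im, Complex.re_ofNat,
    Complex.im_ofNat]
  ring

theorem ground_of {d : ℕ} (ω : V d → Bool) (R : ℕ) (E r : ℝ) (h : Loc (pot ω) R E r) :
    |ground ω R - E| ≤ r := by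
  obtain ⟨h1, g0, h2, h3, h4⟩ := h
  have hn : ∀ g : V d → ℂ, ∑ x ∈ Q (0 : V d) R, ‖g x‖ ^ 2 =
      ∑ x ∈ Q (0 : V d) R, (g x).re ^ 2 + ∑ x ∈ Q (0 : V d) R, (g x).im ^ 2 := by
    intro g
    rw [← Finset.sum_add_distrib]
    refine Finset.sum_congr rfl fun x _ => ?_
    rw [← Complex.normSq_eq_norm_sq, Complex.normSq_apply]
    ring
  have hlb : ∀ t ∈ {t : ℝ | ∃ g : (Fin d → ℤ) → ℂ, (∀ x, x ∉ box d R → g x = 0) ∧
      0 < ∑ x ∈ box d R, ‖g x‖ ^ 2 ∧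
      t * ∑ x ∈ box d R, ‖g x‖ ^ 2 = (∑ x ∈ box d R, (starRingEnd ℂ) (g x) * act ω g x).re},
      E - r ≤ t := by
    rintro t ⟨g, k1, k2, k3⟩
    rw [box_eq] at k1 k2 k3
    rw [Complex.re_sum, Finset.sum_congr rfl fun x _ => form_eq ω g x,
      Finset.sum_add_distrib] at k3
    have m1 := h1 (fun y => (g y).re) (fun x hx => by rw [k1 x hx]; rfl)
    have m2 := h1 (fun y => (g y).im) (fun x hx => by rw [k1 x hx]; rfl)
    have m3 : (E - r) * ∑ x ∈ Q (0 : V d) R, ‖g x‖ ^ 2 ≤ t * ∑ x ∈ Q (0 : V d) R, ‖g x‖ ^ 2 := by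
      rw [k3, hn, mul_add]
      exact add_le_add m1 m2
    exact le_of_mul_le_mul_right m3 k2
  have hne : ((∑ x ∈ Q (0 : V d) R, g0 x * (Lp g0 x + pot ω x * g0 x)) /
      ∑ x ∈ Q (0 : V d) R, g0 x ^ 2) ∈
      {t : ℝ | ∃ g : (Fin d → ℤ) → ℂ, (∀ x, x ∉ box d R → g x = 0) ∧
      0 < ∑ x ∈ box d R, ‖g x‖ ^ 2 ∧
      t * ∑ x ∈ box d R, ‖g x‖ ^ 2 = (∑ x ∈ box d R, (starRingEnd ℂ) (g x) * act ω g x).re} := by
    refine ⟨fun x => ((g0 x : ℝ) : ℂ), ?_, ?_, ?_⟩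
    · intro x hx
      rw [box_eq] at hx
      show ((g0 x : ℝ) : ℂ) = 0
      rw [h2 x hx]
      rfl
    · rw [box_eq, hn]
      simp only [Complex.ofReal_re, Complex.ofReal_im]
      simpa using h3
    · have e1 : ∀ x, ((starRingEnd ℂ) ((g0 x : ℝ) : ℂ) *
          act ω (fun y => ((g0 y : ℝ) : ℂ)) x).re = g0 x * (Lp g0 x + pot ω x * g0 x) := by
        intro x
        have := form_eq ω (fun y => ((g0 y : ℝ) : ℂ)) x
        simp only [Complex.ofReal_re, Complex.ofReal_im, zero_mul, add_zero] at this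
        exact this
      have e2 := hn (fun y => ((g0 y : ℝ) : ℂ))
      simp only [Complex.ofReal_re, Complex.ofReal_im] at e2
      have e3 : (∑ x ∈ Q (0 : V d) R, (0 : ℝ) ^ 2) = 0 := by simp
      rw [e3, add_zero] at e2
      rw [box_eq, Complex.re_sum, Finset.sum_congr rfl fun x _ => e1 x]
      beta_reduce
      rw [e2, div_mul_cancel₀ _ h3.ne']
  have hbdd : BddBelow {t : ℝ | ∃ g : (Fin d → ℤ) → ℂ, (∀ x, x ∉ box d R → g x = 0) ∧
      0 < ∑ x ∈ box d R, ‖g x‖ ^ 2 ∧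
      t * ∑ x ∈ box d R, ‖g x‖ ^ 2 = (∑ x ∈ box d R, (starRingEnd ℂ) (g x) * act ω g x).re} :=
    ⟨E - r, hlb⟩
  have a1 : E - r ≤ ground ω R := le_csInf ⟨_, hne⟩ hlb
  have a2 : ground ω R ≤ E + r := by
    refine (csInf_le hbdd hne).trans ?_
    rw [div_le_iff₀ h3]
    exact h4
  rw [abs_le]
  constructor <;> linarith

open FinB2 (Eb) in
theorem main (hRES : S_RES) (hPRB : S_PRB) (hLOC : S_LOC) (hLOW : S_LOW) (hUPP : S_UPP)
    (hDEC : S_DEC) (hEXP : S_EXP) (hA1 : S_AS1) (hA2 : S_AS2) (hA3 : S_AS3) (hA5 : S_AS5)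
    (hA6 : S_AS6) (hA7 : S_AS7) (hWLK : S_WLK) (hEIG : S_EIG) (hPAR : S_PAR) (β : ℝ)
    (hβ : 0 < β) (hβ2 : β < 1 / 2) :
    ∃ d₀ : ℕ, ∀ d : ℕ, d₀ ≤ d →
      (coin d).real {ω | ¬ (
        (∀ R : ℕ, Real.exp (2 * (d : ℝ) ^ β) ≤ R → (R : ℝ) ≤ Real.exp (Real.exp ((d : ℝ) ^ β)) →
          |ground ω R - Eb β d| ≤ Real.exp (-(d : ℝ) ^ β)) ∧
        ∀ q : ℝ, Real.exp (-(d : ℝ) ^ β) ≤ q → q ≤ 1 → ∀ (E' : ℝ) (u : (Fin d → ℤ) → ℂ),
          (E' ≤ Eb β d + q ∨ 4 * d - Eb β d - q ≤ E') → (Summable fun x => ‖u x‖ ^ 2) →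
          (∀ x, act ω u x = (E' : ℂ) * u x) → ∀ x : Fin d → ℤ,
          ‖x‖ ≤ Real.exp (Real.exp ((d : ℝ) ^ β)) / 2 →
          ‖u x‖ ^ 2 ≤ (60 * q * d * Real.log (2 / q)) ^ ((d : ℝ) / 2) * ∑' y, ‖u y‖ ^ 2)} ≤
        Real.exp (-Real.exp ((d : ℝ) ^ β)) ∧
      ∃ S : Set ℝ, MeasurableSet S ∧
        volume ((Set.Ioo (-1) (Eb β d - Real.exp (-(d : ℝ) ^ β)) ∪
          Set.Ioo (4 * d - Eb β d + Real.exp (-(d : ℝ) ^ β)) (4 * d + 1)) \ S) ≤
          ENNReal.ofReal (Real.exp (-Real.exp ((d : ℝ) ^ β))) ∧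
        ∀ᵐ ω ∂(coin d), ∀ H : Op (L2 d), IsAnderson ω H →
          ∀ (ψ : L2 d) (μ : Measure ℝ), IsSpectralMeasure H ψ μ → (μ.restrict S) ⟂ₘ volume := by
  obtain ⟨d₀, hd₀⟩ := (FinB2.fin2 hRES hPRB hLOC hLOW hUPP hDEC hEXP hA1 hA2 hA3 hA5 hA6 hA7 hWLK
    hEIG hPAR β hβ hβ2).exists_forall_of_atTop
  refine ⟨d₀, fun d hd => ?_⟩
  obtain ⟨-, k2, S, s1, s2, s3⟩ := hd₀ d hd
  refine ⟨?_, S, s1, s2, ?_⟩
  · refine le_trans ?_ k2
    have hPC : coin d = PP d := rfl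
    rw [hPC]
    refine measureReal_mono ?_ (measure_ne_top _ _)
    intro ω hω hgood
    apply hω
    obtain ⟨g1, g2⟩ := hgood
    refine ⟨fun R hR1 hR2 => ground_of ω R _ _ (g1 R hR1 hR2), ?_⟩
    intro q hq hq1 E' u hE' hu hev x hx
    refine g2 q hq hq1 x ?_ E' u ⟨hu, fun y => ?_⟩ hE'
    · rw [mem_Q]
      intro i
      have h1 : ‖x i‖ ≤ Real.exp (Real.exp ((d : ℝ) ^ β)) / 2 := (norm_le_pi_norm x i).trans hx
      have h2 : ((|x i| : ℤ) : ℝ) ≤ Real.exp (Real.exp ((d : ℝ) ^ β)) / 2 := by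
        rw [Int.norm_eq_abs] at h1
        push_cast
        exact h1
      have h3 : (x i).natAbs ≤ ⌊Real.exp (Real.exp ((d : ℝ) ^ β)) / 2⌋₊ := by
        apply Nat.le_floor
        rw [Nat.cast_natAbs]
        exact h2
      have h4 : |x i - (0 : V d) i| = ((x i).natAbs : ℤ) := by
        simp
      rw [h4]
      exact_mod_cast h3
    · rw [← act_eq]
      exact hev y
  · filter_upwards [s3] with ω hω H hH ψ μ hμ
    exact hω H (fun u j => congrFun (hH u) j) ψ μ hμ.1 hμ.2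

end Pool.Agent.Y661.HE.ResB
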