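import Pool.Agent.Y657.HE.INF
import Pool.Agent.Y665.HE.LOC
import Pool.Agent.Y758.HE.MEA
import Pool.Agent.Y914.HE.MEN
import Pool.Agent.Y977.HE.PT
import Pool.Agent.Y794.HE.PRB
import Pool.Agent.Y155.HE.FRM
import Pool.Agent.Y290.HE.DEC
import Pool.Agent.Y925.HE.ENE
import Pool.Agent.Y297.HE.RET
import Pool.Agent.Y407.HE.AS1
import Pool.Agent.Y496.HE.AS2
import Pool.Agent.Y274.HE.AS3
import Pool.Agent.Y858.HE.AS5
import Pool.Agent.Y261.HE.NSH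
import Pool.Agent.Y430.HE.WLK
import Pool.Agent.Y529.HE.EIG
import Pool.Agent.Y220.HE.PAR
import Pool.Agent.H4R2.HU.UT
import Pool.Agent.H4R2.HU.UM
import Pool.Agent.H4R2.HU.UR
import Pool.Agent.H4R2.HD.KB
import Pool.Agent.H4R2.HD.KS
import Pool.Agent.H4R2.HD.BA
import Pool.Agent.Y661.HE.BND
import Pool.Agent.Y661.HE.ResB

/-! All parts of project HE -/

set_option autoImplicit false

namespace Pool.Agent.Y661.HE.All

open Pool.Agent.H4R2.HD

theorem prb : S_PRB := Y794.HE.PRB.main BND.bnd (Y657.HE.INF.main BND.bnd) Y665.HE.LOC.loc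
  Y758.HE.MEA.main (Y914.HE.MEN.main BND.bnd Y758.HE.MEA.main Y665.HE.LOC.cov)
  (Y977.HE.PT.main (H4R2.HU.UT.UT (H4R2.HU.UM.um H4R2.HU.UR.UR))) KB.KB
  (KS.KS BA.iter_sum BA.iter_mono BA.iter_const)

theorem ex : S_EXP := Y297.HE.RET.ex BND.bnd (Y925.HE.ENE.main BND.bnd Y758.HE.MEA.main)
  (Y297.HE.RET.ret KB.KB)

theorem wlk : S_WLK := Y430.HE.WLK.main Y261.HE.NSH.main

end Pool.Agent.Y661.HE.All
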