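import Pool.Agent.Y661.HE.Stm

/-! The core: localization of the ground state energy of boxes -/

set_option autoImplicit false

open scoped BigOperators ENNReal
open MeasureTheory Filter

namespace Pool.Agent.Y661.HE.Core

open Pool.Agent.H12R2.And (V ee Q card_Q Q_mono)
open Pool.Agent.H4R2.HD (Av Gn ind)

/-- the error terms at `x` are small -/
def GE {d : ℕ} (N : ℕ) (P : Measure (V d → ℝ)) (η : ℝ) (W : V d → ℝ) (x : V d) : Prop :=
  ∀ n < N, |(Av^[N] (gn N P n W)) x| ≤ η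

/-- the lowest eigenvalue of `-Δ + W` in the box of radius `R` is within `r` of `E` -/
def Loc {d : ℕ} (W : V d → ℝ) (R : ℕ) (E r : ℝ) : Prop :=
  (∀ g : V d → ℝ, (∀ x, x ∉ Q 0 R → g x = 0) →
    (E - r) * ∑ x ∈ Q 0 R, g x ^ 2 ≤ ∑ x ∈ Q 0 R, g x * (Lp g x + W x * g x)) ∧
  ∃ g : V d → ℝ, (∀ x, x ∉ Q 0 R → g x = 0) ∧ 0 < ∑ x ∈ Q 0 R, g x ^ 2 ∧
    ∑ x ∈ Q 0 R, g x * (Lp g x + W x * g x) ≤ (E + r) * ∑ x ∈ Q 0 R, g x ^ 2

theorem site (hPRB : S_PRB) {d : ℕ} (hd : 1 ≤ d) (N : ℕ) (c η : ℝ) (μ : Measure ℝ)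
    [IsProbabilityMeasure μ] (hc : 0 < c) (hη : 0 ≤ η) (hμ : ∀ᵐ t ∂μ, |t| ≤ c)
    (h8 : 8 * c * N / d ≤ 1) (x : V d) :
    (PI d μ).real {W | ¬ GE N (PI d μ) η W x} ≤ pr d N c η := by
  have h1 : {W | ¬ GE N (PI d μ) η W x} ⊆
      ⋃ n ∈ Finset.range N, {W | η < |(Av^[N] (gn N (PI d μ) n W)) x|} := by
    intro W hW
    simp only [GE, Set.mem_ofPred_eq, not_forall, not_le] at hW
    obtain ⟨n, hn, h⟩ := hW
    simp only [Set.mem_iUnion]
    exact ⟨n, Finset.mem_range.2 hn, h⟩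
  refine (measureReal_mono h1 (measure_ne_top _ _)).trans ((measureReal_biUnion_finset_le _ _).trans ?_)
  refine (Finset.sum_le_sum fun n hn =>
    hPRB hd N N c η μ hc hη hμ h8 n x (Finset.mem_range.1 hn)).trans (le_of_eq ?_)
  rw [Finset.sum_const, Finset.card_range, nsmul_eq_mul]
  unfold pr
  ring

theorem box (hPRB : S_PRB) {d : ℕ} (hd : 1 ≤ d) (N : ℕ) (c η : ℝ) (μ : Measure ℝ)
    [IsProbabilityMeasure μ] (hc : 0 < c) (hη : 0 ≤ η) (hμ : ∀ᵐ t ∂μ, |t| ≤ c)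
    (h8 : 8 * c * N / d ≤ 1) (F : Finset (V d)) :
    (PI d μ).real {W | ¬ ∀ x ∈ F, GE N (PI d μ) η W x} ≤ F.card * pr d N c η := by
  have h1 : {W | ¬ ∀ x ∈ F, GE N (PI d μ) η W x} ⊆
      ⋃ x ∈ F, {W | ¬ GE N (PI d μ) η W x} := by
    intro W hW
    simp only [Set.mem_ofPred_eq, not_forall] at hW
    obtain ⟨x, hx, h⟩ := hW
    simp only [Set.mem_iUnion]
    exact ⟨x, hx, h⟩
  refine (measureReal_mono h1 (measure_ne_top _ _)).trans ((measureReal_biUnion_finset_le _ _).trans ?_)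
  refine (Finset.sum_le_sum fun x _ => site hPRB hd N c η μ hc hη hμ h8 x).trans (le_of_eq ?_)
  rw [Finset.sum_const, nsmul_eq_mul]

theorem ae_Bd {d : ℕ} (μ : Measure ℝ) [IsProbabilityMeasure μ] (c : ℝ)
    (hμ : ∀ᵐ t ∂μ, |t| ≤ c) : ∀ᵐ W ∂(PI d μ), Bd c W := by
  unfold Bd
  rw [ae_all_iff]
  intro x
  exact (measurePreserving_eval_infinitePi (fun _ : Fin d → ℤ => μ) x).quasiMeasurePreserving.ae hμ

/-- the supersolution -/
theorem sup (hRES : S_RES) {d : ℕ} (hd : 1 ≤ d) (N : ℕ) (c r : ℝ) (P : Measure (V d → ℝ))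
    [IsProbabilityMeasure P] (hc : 0 ≤ c) (hP : ∀ᵐ W ∂P, Bd c W) (h16 : 16 * c * N / d ≤ 1)
    (h9 : 9 * c * (4 * c * N / d) ^ N ≤ r / 8) (hr : 0 ≤ r) (W : V d → ℝ) (hW : Bd c W) :
    (∀ x, 1 / 2 ≤ fi N N P W x ∧ fi N N P W x ≤ 3 / 2) ∧
    ∀ x, GE N P (r / (8 * N)) W x →
      |Lp (fi N N P W) x + (W x - Es N N P) * fi N N P W x| ≤ r / 4 := by
  have e1 : 8 * c * N / d = (16 * c * N / d) / 2 := by ring
  have e2 : 8 * c * N / d ≤ 1 / 2 := by rw [e1]; linarith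
  obtain ⟨h1, h2⟩ := hRES hd N N c P hc hP (by linarith) W hW
  refine ⟨fun x => ?_, fun x hx => ?_⟩
  · have := abs_le.1 ((h1 x).trans e2)
    constructor <;> linarith [this.1, this.2]
  · refine (h2 x).trans ?_
    have h3 : ∑ n ∈ Finset.range N, |(Av^[N] (gn N P n W)) x| ≤ r / 8 := by
      refine (Finset.sum_le_sum fun n hn => hx n (Finset.mem_range.1 hn)).trans ?_
      rw [Finset.sum_const, Finset.card_range, nsmul_eq_mul]
      rcases Nat.eq_zero_or_pos N with h | h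
      · subst h
        simp
        linarith
      · have : (0 : ℝ) < N := by exact_mod_cast h
        apply le_of_eq
        field_simp
    linarith

theorem loc_of (hRES : S_RES) (hLOW : S_LOW) (hUPP : S_UPP) {d : ℕ} (hd : 1 ≤ d) (N : ℕ)
    (c r : ℝ) (P : Measure (V d → ℝ))
    [IsProbabilityMeasure P] (hc : 0 ≤ c) (hP : ∀ᵐ W ∂P, Bd c W) (h16 : 16 * c * N / d ≤ 1)
    (h9 : 9 * c * (4 * c * N / d) ^ N ≤ r / 8) (hr : 0 ≤ r) (W : V d → ℝ) (hW : Bd c W) (R : ℕ)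
    (hR : 18 * d / (2 * R + 1) ≤ r / 2)
    (hG : ∀ x ∈ Q (0 : V d) R, GE N P (r / (8 * N)) W x) : Loc W R (Es N N P) r := by
  obtain ⟨h1, h2⟩ := sup hRES hd N c r P hc hP h16 h9 hr W hW
  constructor
  · intro g hg
    have h3 := hLOW 0 R (fi N N P W) W (Es N N P - r / 2) (fun x => by linarith [(h1 x).1]) (by
      intro x hx
      have h4 := abs_le.1 (h2 x (hG x hx))
      have h5 := (h1 x).1
      nlinarith [h4.1]) g hg
    have h6 : (0 : ℝ) ≤ ∑ x ∈ Q (0 : V d) R, g x ^ 2 := Finset.sum_nonneg fun _ _ => sq_nonneg _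
    refine le_trans ?_ h3
    exact mul_le_mul_of_nonneg_right (by linarith) h6
  · classical
    refine ⟨fun x => if x ∈ Q (0 : V d) R then fi N N P W x else 0, fun x hx => ?_, ?_, ?_⟩
    · simp [hx]
    · refine lt_of_lt_of_le ?_ (Finset.single_le_sum (f := fun x : V d =>
        (if x ∈ Q (0 : V d) R then fi N N P W x else 0) ^ 2) (fun _ _ => sq_nonneg _)
        (Pool.Agent.H12R2.And.self_mem_Q (0 : V d) R))
      beta_reduce
      rw [if_pos (Pool.Agent.H12R2.And.self_mem_Q (0 : V d) R)]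
      have := (h1 0).1
      positivity
    · have h3 := hUPP hd 0 R (fi N N P W) W (Es N N P) (r / 4) (by linarith) h1
        (fun x hx => h2 x (hG x hx)) (fun x => if x ∈ Q (0 : V d) R then fi N N P W x else 0)
        (fun x hx => by simp [hx]) (fun x hx => by simp [hx])
      refine h3.trans ?_
      refine mul_le_mul_of_nonneg_right (by linarith) (Finset.sum_nonneg fun _ _ => sq_nonneg _)

/-- the ground state energies of the boxes -/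
theorem core (hRES : S_RES) (hPRB : S_PRB) (hLOW : S_LOW) (hUPP : S_UPP) (hA1 : S_AS1)
    (hA5 : S_AS5) (β : ℝ) (hβ : 0 < β) (hβ2 : β < 1 / 2) : ∀ᶠ d : ℕ in atTop, ∀ c : ℝ, 0 < c →
    c ≤ (d : ℝ) ^ (1 / 4 : ℝ) → ∀ (μ : Measure ℝ) [IsProbabilityMeasure μ], (∀ᵐ t ∂μ, |t| ≤ c) →
    (PI d μ).real {W | ¬ ∀ R : ℕ, Real.exp (2 * (d : ℝ) ^ β) ≤ R →
      (R : ℝ) ≤ Real.exp (Real.exp ((d : ℝ) ^ β)) →
      Loc W R (Es (NN β d) (NN β d) (PI d μ)) (rr β d)} ≤ Real.exp (-Real.exp ((d : ℝ) ^ β)) := by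
  filter_upwards [hA1 β hβ hβ2, hA5 β hβ hβ2, eventually_ge_atTop 1] with d a1 a5 hd
  intro c hc hcd μ _ hμ
  obtain ⟨b1, b2, b3⟩ := a1 c hc hcd
  obtain ⟨c1, c2, c3, c4⟩ := a5
  have hd' : (1 : ℝ) ≤ d := by exact_mod_cast hd
  set N := NN β d with hN
  set r := rr β d with hr
  have hr0 : 0 < r := Real.exp_pos _
  have hN0 : (0 : ℝ) < N := by
    have : 0 < N := by omega
    exact_mod_cast this
  set RM : ℕ := ⌊Real.exp (Real.exp ((d : ℝ) ^ β))⌋₊ with hRM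
  have h8 : 8 * c * N / d ≤ 1 := by
    have : 8 * c * N / d = (16 * c * N / d) / 2 := by ring
    rw [this]; linarith
  have hη : (0 : ℝ) ≤ r / (8 * N) := by positivity
  have hbox := box hPRB hd N c (r / (8 * N)) μ hc hη hμ h8 (Q (0 : V d) RM)
  have hae : ({W | ¬ ∀ R : ℕ, Real.exp (2 * (d : ℝ) ^ β) ≤ R →
      (R : ℝ) ≤ Real.exp (Real.exp ((d : ℝ) ^ β)) →
      Loc W R (Es N N (PI d μ)) r} : Set (V d → ℝ)) ≤ᵐ[PI d μ]
      {W | ¬ ∀ x ∈ Q (0 : V d) RM, GE N (PI d μ) (r / (8 * N)) W x} := by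
    filter_upwards [ae_Bd (d := d) μ c hμ] with W hW hbad
    intro hgood
    apply hbad
    intro R hR1 hR2
    refine loc_of hRES hLOW hUPP hd N c r (PI d μ) hc.le (ae_Bd μ c hμ) b1 b2 hr0.le W hW R ?_ ?_
    · rw [div_le_iff₀ (by positivity)]
      have e1 : 36 * d * Real.exp ((d : ℝ) ^ β) ≤ R := c2.trans hR1
      have e2 : r * Real.exp ((d : ℝ) ^ β) = 1 := by
        rw [hr]
        unfold rr
        rw [← Real.exp_add, neg_add_cancel, Real.exp_zero]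
      have e3 : r * (36 * d * Real.exp ((d : ℝ) ^ β)) ≤ r * R :=
        mul_le_mul_of_nonneg_left e1 hr0.le
      have e4 : r * (36 * d * Real.exp ((d : ℝ) ^ β)) = 36 * d := by
        linear_combination 36 * d * e2
      nlinarith
    · intro x hx
      refine hgood x (Q_mono ?_ hx)
      exact Nat.le_floor hR2
  have hm : (PI d μ).real {W | ¬ ∀ R : ℕ, Real.exp (2 * (d : ℝ) ^ β) ≤ R →
      (R : ℝ) ≤ Real.exp (Real.exp ((d : ℝ) ^ β)) → Loc W R (Es N N (PI d μ)) r} ≤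
      (PI d μ).real {W | ¬ ∀ x ∈ Q (0 : V d) RM, GE N (PI d μ) (r / (8 * N)) W x} :=
    ENNReal.toReal_mono (measure_ne_top _ _) (measure_mono_ae hae)
  refine hm.trans (hbox.trans ?_)
  rw [card_Q]
  refine le_trans ?_ c1
  have hpr : pr d N c (r / (8 * N)) ≤ Real.exp (-Real.exp (2 * (d : ℝ) ^ β)) := b3
  have hRMle : (RM : ℝ) ≤ Real.exp (Real.exp ((d : ℝ) ^ β)) := Nat.floor_le (Real.exp_pos _).le
  have h0 : 0 ≤ pr d N c (r / (8 * N)) := by unfold pr; positivity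
  push_cast
  gcongr

/-- two such energies are close -/
theorem close {d : ℕ} (W : V d → ℝ) (R : ℕ) (E E' r r' : ℝ) (h : Loc W R E r)
    (h' : Loc W R E' r') : |E - E'| ≤ r + r' := by
  obtain ⟨l, g, g1, g2, g3⟩ := h
  obtain ⟨l', g', g1', g2', g3'⟩ := h'
  have a1 := (l g' g1').trans g3'
  have a2 := (l' g g1).trans g3
  have b1 := le_of_mul_le_mul_right a1 g2'
  have b2 := le_of_mul_le_mul_right a2 g2
  rw [abs_le]
  constructor <;> linarith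

/-- the energies do not depend on the exponent -/
theorem cmp (hRES : S_RES) (hPRB : S_PRB) (hLOW : S_LOW) (hUPP : S_UPP) (hA1 : S_AS1)
    (hA5 : S_AS5) (hA6 : S_AS6) (β β' : ℝ) (hβ : 0 < β) (hβ2 : β < 1 / 2) (hβ' : 0 < β')
    (hβ2' : β' < 1 / 2) : ∀ᶠ d : ℕ in atTop, ∀ c : ℝ, 0 < c →
    c ≤ (d : ℝ) ^ (1 / 4 : ℝ) → ∀ (μ : Measure ℝ) [IsProbabilityMeasure μ], (∀ᵐ t ∂μ, |t| ≤ c) →
    |Es (NN β d) (NN β d) (PI d μ) - Es (NN β' d) (NN β' d) (PI d μ)| ≤ rr β d + rr β' d := by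
  filter_upwards [core hRES hPRB hLOW hUPP hA1 hA5 β hβ hβ2,
    core hRES hPRB hLOW hUPP hA1 hA5 β' hβ' hβ2', hA5 β hβ hβ2, hA5 β' hβ' hβ2',
    hA6 β β' hβ hβ2 hβ' hβ2'] with d h1 h2 h3 h4 h5
  intro c hc hcd μ _ hμ
  have k1 := (h1 c hc hcd μ hμ).trans h3.2.2.2
  have k2 := (h2 c hc hcd μ hμ).trans h4.2.2.2
  obtain ⟨R, r1, r2, r3, r4⟩ := h5
  set B1 : Set (V d → ℝ) := {W | ¬ ∀ R : ℕ, Real.exp (2 * (d : ℝ) ^ β) ≤ R →
      (R : ℝ) ≤ Real.exp (Real.exp ((d : ℝ) ^ β)) →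
      Loc W R (Es (NN β d) (NN β d) (PI d μ)) (rr β d)} with hB1
  set B2 : Set (V d → ℝ) := {W | ¬ ∀ R : ℕ, Real.exp (2 * (d : ℝ) ^ β') ≤ R →
      (R : ℝ) ≤ Real.exp (Real.exp ((d : ℝ) ^ β')) →
      Loc W R (Es (NN β' d) (NN β' d) (PI d μ)) (rr β' d)} with hB2
  have hU : (PI d μ).real (B1 ∪ B2) ≤ 1 / 2 := by
    refine (measureReal_union_le _ _).trans ?_
    linarith
  have hne : ∃ W, W ∉ B1 ∪ B2 := by
    by_contra hcon
    push Not at hcon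
    have : B1 ∪ B2 = Set.univ := Set.eq_univ_of_forall hcon
    rw [this, probReal_univ] at hU
    norm_num at hU
  obtain ⟨W, hW⟩ := hne
  rw [Set.mem_union, not_or] at hW
  obtain ⟨w1, w2⟩ := hW
  have w1' := not_not.1 w1
  have w2' := not_not.1 w2
  exact close W R _ _ _ _ (w1' R r1 r2) (w2' R r3 r4)

/-- the expansion of the energy -/
theorem energy (hRES : S_RES) (hPRB : S_PRB) (hLOW : S_LOW) (hUPP : S_UPP) (hEXP : S_EXP)
    (hA1 : S_AS1) (hA5 : S_AS5) (hA6 : S_AS6) (hA7 : S_AS7) (β : ℝ) (hβ : 0 < β)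
    (hβ2 : β < 1 / 2) (m : ℕ) : ∀ᶠ d : ℕ in atTop, ∀ c : ℝ,
    ((d : ℝ) ^ m)⁻¹ ≤ c → c ≤ (d : ℝ) ^ (1 / 4 : ℝ) → ∀ (μ : Measure ℝ) [IsProbabilityMeasure μ],
    (∀ᵐ t ∂μ, |t| ≤ c) → μ.map (fun t => -t) = μ → ∀ v : ℝ, ∫ t, t ^ 2 ∂μ = v →
    |Es (NN β d) (NN β d) (PI d μ) + v / (2 * d) * (1 + 1 / (2 * d))| ≤
      c ^ 2 * (d : ℝ) ^ (-(9 / 4) : ℝ) := by
  filter_upwards [cmp hRES hPRB hLOW hUPP hA1 hA5 hA6 β (1 / 20) hβ hβ2 (by norm_num)
    (by norm_num), hA1 (1 / 20) (by norm_num) (by norm_num),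
    hA5 (1 / 20) (by norm_num) (by norm_num), hA7 β hβ hβ2 m, eventually_ge_atTop 1]
    with d h1 h2 h3 h4 hd
  intro c hcm hcd μ _ hμ hsym v hv
  have hd' : (1 : ℝ) ≤ d := by exact_mod_cast hd
  have hc : 0 < c := lt_of_lt_of_le (by positivity) hcm
  have k1 := h1 c hc hcd μ hμ
  obtain ⟨b1, -, -⟩ := h2 c hc hcd
  have h8 : 8 * c * NN (1 / 20) d / d ≤ 1 := by
    have : 8 * c * NN (1 / 20) d / d = (16 * c * NN (1 / 20) d / d) / 2 := by ring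
    rw [this]; linarith
  have hv0 : 0 ≤ v := by
    rw [← hv]
    exact integral_nonneg fun t => sq_nonneg t
  have hv2 : v ≤ c ^ 2 := by
    rw [← hv]
    have h5 : ∀ᵐ t ∂μ, ‖t ^ 2‖ ≤ c ^ 2 := by
      filter_upwards [hμ] with t ht
      rw [Real.norm_eq_abs, abs_pow]
      exact pow_le_pow_left₀ (abs_nonneg t) ht 2
    have h6 := norm_integral_le_of_norm_le_const h5
    have h7 := (le_abs_self _).trans h6
    simpa using h7
  have k2 := hEXP hd (NN (1 / 20) d) (NN (1 / 20) d) c v μ hc hμ hsym hv h8 h3.2.2.1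
    (by have := h3.2.2.1; omega)
  have k3 := h4 c v hcm hcd hv0 hv2
  have l1 := abs_le.1 k1
  have l2 := abs_le.1 k2
  rw [abs_le]
  constructor <;> linarith [l1.1, l1.2, l2.1, l2.2]

end Pool.Agent.Y661.HE.Core
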