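import Pool.Agent.Y661.HE.Core
import Pool.Agent.H4R2.HD.Eng

/-! The Bernoulli law -/

set_option autoImplicit false

open scoped BigOperators ENNReal
open MeasureTheory Filter

namespace Pool.Agent.Y661.HE.FinB

open Pool.Agent.H12R2.And (V ee Q card_Q Q_mono Q_trans pot PP Dep Good XX measurableSet_XX
  volume_compl_XX IsH Rz SS measurableSet_SS)
open Pool.Agent.H4R2.HD (Av Gn ind engine)
open Core (GE Loc)

/-- the law of a fair sign on the line -/
noncomputable def mB : Measure ℝ :=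
  (PMF.uniformOfFintype Bool).toMeasure.map fun b => if b then (1 : ℝ) else -1

instance : IsProbabilityMeasure mB := by
  unfold mB
  exact Measure.isProbabilityMeasure_map (Measurable.of_discrete.aemeasurable)

theorem mB_le : ∀ᵐ t ∂mB, |t| ≤ 1 := by
  unfold mB
  rw [ae_map_iff Measurable.of_discrete.aemeasurable
    (measurableSet_le continuous_abs.measurable measurable_const)]
  refine Eventually.of_forall fun b => ?_
  cases b <;> simp

theorem int_coin (f : Bool → ℝ) :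
    ∫ b, f b ∂(PMF.uniformOfFintype Bool).toMeasure = (f true + f false) / 2 := by
  rw [PMF.integral_eq_sum]
  simp
  ring

theorem mB_sq : ∫ t, t ^ 2 ∂mB = 1 := by
  unfold mB
  rw [integral_map Measurable.of_discrete.aemeasurable
    (by fun_prop : Measurable fun t : ℝ => t ^ 2).aestronglyMeasurable, int_coin]
  norm_num

theorem coin_not : (PMF.uniformOfFintype Bool).toMeasure.map (fun b => !b) =
    (PMF.uniformOfFintype Bool).toMeasure := by
  refine Measure.ext_of_singleton fun b => ?_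
  rw [Measure.map_apply Measurable.of_discrete (measurableSet_singleton b)]
  have h1 : (fun b : Bool => !b) ⁻¹' {b} = {!b} := by
    ext x
    cases x <;> cases b <;> simp
  rw [h1, PMF.toMeasure_apply_singleton _ _ (measurableSet_singleton _),
    PMF.toMeasure_apply_singleton _ _ (measurableSet_singleton _)]
  simp

theorem mB_neg : mB.map (fun t => -t) = mB := by
  unfold mB
  rw [Measure.map_map measurable_neg Measurable.of_discrete]
  have h1 : ((fun t : ℝ => -t) ∘ fun b : Bool => if b then (1 : ℝ) else -1) =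
      (fun b : Bool => if b then (1 : ℝ) else -1) ∘ fun b => !b := by
    funext b
    cases b <;> simp
  rw [h1, ← Measure.map_map Measurable.of_discrete Measurable.of_discrete, coin_not]

theorem law (d : ℕ) : (PP d).map pot = PI d mB := by
  have h1 := Measure.infinitePi_map_pi
    (μ := fun _ : Fin d → ℤ => (PMF.uniformOfFintype Bool).toMeasure)
    (f := fun _ (b : Bool) => if b then (1 : ℝ) else -1) (fun _ => Measurable.of_discrete)
  exact h1

theorem meas_pot (d : ℕ) : Measurable (pot : (V d → Bool) → V d → ℝ) := by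
  rw [measurable_pi_iff]
  intro x
  have h1 : Measurable fun b : Bool => if b then (1 : ℝ) else -1 := Measurable.of_discrete
  exact h1.comp (measurable_pi_apply x)

theorem law_neg (d : ℕ) (μ : Measure ℝ) [IsProbabilityMeasure μ] (h : μ.map (fun t => -t) = μ) :
    (PI d μ).map (fun W x => -W x) = PI d μ := by
  have h1 := Measure.infinitePi_map_pi (μ := fun _ : Fin d → ℤ => μ)
    (f := fun _ (s : ℝ) => -s) (fun _ => measurable_neg)
  rw [h] at h1
  exact h1

theorem law_s (d : ℕ) (s : ℝ) (hs : s = 1 ∨ s = -1) :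
    (PP d).map (fun ω x => s * pot ω x) = PI d mB := by
  rcases hs with rfl | rfl
  · simp only [one_mul]
    exact law d
  · have h1 : (fun (ω : V d → Bool) (x : V d) => -1 * pot ω x) =
        (fun (W : V d → ℝ) x => -W x) ∘ pot := by
      funext ω x
      simp
    have hm2 : Measurable (fun (W : V d → ℝ) x => -W x) := by fun_prop
    rw [h1, ← Measure.map_map hm2 (meas_pot d), law, law_neg d mB mB_neg]

theorem bd_s {d : ℕ} (s : ℝ) (hs : s = 1 ∨ s = -1) (ω : V d → Bool) :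
    Bd 1 (fun x => s * pot ω x) := by
  intro x
  show |s * pot ω x| ≤ 1
  unfold pot
  rcases hs with rfl | rfl <;> split_ifs <;> simp

/-- the initial event -/
def J {d : ℕ} (N : ℕ) (η : ℝ) (L0 : ℕ) (ω : V d → Bool) (a : V d) : Prop :=
  ∀ s : ℝ, s = 1 ∨ s = -1 → ∀ x ∈ Q a (L0 - (N + 1) * N),
    GE N (PI d mB) η (fun y => s * pot ω y) x

theorem dep (hLOC : S_LOC) {d : ℕ} (N : ℕ) (η : ℝ) (L0 : ℕ) (h : (N + 1) * N ≤ L0) (a : V d) :
    Dep (Q a L0) {ω | J N η L0 ω a} := by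
  intro ω ω' hω h1 s hs x hx n hn
  have h2 := h1 s hs x hx n hn
  have h3 := (hLOC N (PI d mB) n x (fun y => s * pot ω y) (fun y => s * pot ω' y)).2 (by
    intro y hy
    have h4 : y ∈ Q a L0 := by
      have := Q_trans hx hy
      refine Q_mono ?_ this
      have : (n + 1) * N ≤ (N + 1) * N := Nat.mul_le_mul_right _ (by omega)
      omega
    simp only [pot, hω y h4])
  rw [← h3]
  exact h2

theorem map_real {d : ℕ} (s : ℝ) (hs : s = 1 ∨ s = -1) (A : Set (V d → ℝ)) :
    (PP d).real {ω | (fun x => s * pot ω x) ∈ A} ≤ (PI d mB).real A := by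
  have h1 := law_s d s hs
  rw [← h1]
  have hm : Measurable (fun (ω : V d → Bool) (x : V d) => s * pot ω x) := by
    rw [measurable_pi_iff]
    intro x
    exact ((measurable_pi_iff.1 (meas_pot d)) x).const_mul s
  refine ENNReal.toReal_mono ?_ (Measure.le_map_apply hm.aemeasurable A)
  rw [h1]
  exact measure_ne_top _ _

theorem finB (hRES : S_RES) (hPRB : S_PRB) (hLOC : S_LOC) (hLOW : S_LOW) (hUPP : S_UPP)
    (hDEC : S_DEC) (hEXP : S_EXP) (hA1 : S_AS1) (hA2 : S_AS2) (hA3 : S_AS3) (hA5 : S_AS5)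
    (hA6 : S_AS6) (hA7 : S_AS7) (β : ℝ) (hβ : 0 < β) (hβ2 : β < 1 / 2) :
    ∀ᶠ d : ℕ in atTop, ∃ E : ℝ, |E + 1 / (2 * d) * (1 + 1 / (2 * d))| ≤ (d : ℝ) ^ (-(9 / 4) : ℝ) ∧
      (PP d).real {ω | ¬ ∀ R : ℕ, Real.exp (2 * (d : ℝ) ^ β) ≤ R →
        (R : ℝ) ≤ Real.exp (Real.exp ((d : ℝ) ^ β)) → Loc (pot ω) R E (rr β d)} ≤
          Real.exp (-Real.exp ((d : ℝ) ^ β)) ∧
      ∃ S : Set ℝ, MeasurableSet S ∧
      volume ((Set.Ioo (-1) (E - rr β d) ∪ Set.Ioo (4 * d - E + rr β d) (4 * d + 1)) \ S) ≤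
        ENNReal.ofReal (Real.exp (-Real.exp ((d : ℝ) ^ β))) ∧
      ∀ᵐ ω ∂(PP d), ∀ (H : lp (fun _ : V d => ℂ) 2 →L[ℂ] lp (fun _ : V d => ℂ) 2), IsH ω H →
        ∀ (ψ : lp (fun _ : V d => ℂ) 2) (μ : Measure ℝ), IsFiniteMeasure μ →
        (∀ z : ℂ, z.im ≠ 0 → (∫ x, ((x : ℂ) - z)⁻¹ ∂μ) = inner ℂ ψ (Rz H z ψ)) →
        (μ.restrict S) ⟂ₘ volume := by
  filter_upwards [hA1 β hβ hβ2, hA2 β hβ hβ2, hA3 β hβ hβ2, hA5 β hβ hβ2,
    Core.energy hRES hPRB hLOW hUPP hEXP hA1 hA5 hA6 hA7 β hβ hβ2 0,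
    Core.core hRES hPRB hLOW hUPP hA1 hA5 β hβ hβ2, eventually_ge_atTop 10]
    with d a1 a2 a3 a5 aE aC hd
  have hd1 : 1 ≤ d := by omega
  have hd' : (10 : ℝ) ≤ d := by exact_mod_cast hd
  have h1d : (1 : ℝ) ≤ (d : ℝ) ^ (1 / 4 : ℝ) := Real.one_le_rpow (by linarith) (by norm_num)
  obtain ⟨b1, b2, b3⟩ := a1 1 one_pos h1d
  obtain ⟨c1, c2, c3, c4, c5, c6, c7⟩ := a2
  obtain ⟨e1, e2, e3, e4⟩ := a5
  have kE := aE 1 (by simp) h1d mB mB_le mB_neg 1 mB_sq
  have kC := aC 1 one_pos h1d mB mB_le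
  set N := NN β d with hN
  set r := rr β d with hr
  set E := Es N N (PI d mB) with hE
  set η : ℝ := r / (8 * N) with hη
  set L0 := LL β d with hL0
  have hr0 : 0 < r := Real.exp_pos _
  have hr1 : r ≤ 1 / 2 := by
    have h1 : (1 : ℝ) ≤ (d : ℝ) ^ β := Real.one_le_rpow (by linarith) hβ.le
    have h2 : r ≤ Real.exp (-1) := by
      rw [hr]
      unfold rr
      exact Real.exp_le_exp.2 (by linarith)
    have h3 : Real.exp (-1) ≤ 1 / 2 := by
      rw [Real.exp_neg, inv_le_comm₀ (Real.exp_pos _) (by norm_num)]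
      have := Real.add_one_le_exp (1 : ℝ)
      norm_num at this ⊢
      linarith
    linarith
  have hN0 : (0 : ℝ) < N := by
    have : 0 < N := by omega
    exact_mod_cast this
  have hη0 : 0 ≤ η := by positivity
  rw [one_pow, one_mul] at kE
  have hE2 : |E| ≤ 1 / 4 := by
    have h1 : (d : ℝ) ^ (-(9 / 4) : ℝ) ≤ 1 / 10 := by
      calc (d : ℝ) ^ (-(9 / 4) : ℝ) ≤ (d : ℝ) ^ (-1 : ℝ) :=
            Real.rpow_le_rpow_of_exponent_le (by linarith) (by norm_num)
        _ = 1 / d := by rw [Real.rpow_neg_one, one_div]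
        _ ≤ 1 / 10 := one_div_le_one_div_of_le (by norm_num) hd'
    have h2 : 1 / (2 * (d : ℝ)) ≤ 1 / 20 := one_div_le_one_div_of_le (by norm_num) (by linarith)
    have h3 : (0 : ℝ) < 1 / (2 * d) := by positivity
    have h4 := abs_le.1 kE
    have h5 : 1 / (2 * (d : ℝ)) * (1 + 1 / (2 * d)) ≤ 1 / 20 * (1 + 1 / 20) := by gcongr
    have h6 : (0 : ℝ) < 1 / (2 * (d : ℝ)) * (1 + 1 / (2 * d)) := by positivity
    rw [abs_le]
    constructor <;> linarith [h4.1, h4.2]
  refine ⟨E, kE, ?_, ?_⟩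
  · refine le_trans ?_ kC
    have h1 := map_real (d := d) 1 (Or.inl rfl) {W | ¬ ∀ R : ℕ, Real.exp (2 * (d : ℝ) ^ β) ≤ R →
      (R : ℝ) ≤ Real.exp (Real.exp ((d : ℝ) ^ β)) → Loc W R E r}
    simp only [one_mul] at h1
    exact h1
  · -- the engine
    have h8 : 8 * 1 * (N : ℝ) / d ≤ 1 := by
      have : 8 * 1 * (N : ℝ) / d = (16 * 1 * N / d) / 2 := by ring
      rw [this]; linarith
    have hP : ∀ a : V d, (PP d).real {ω | ¬ J N η L0 ω a} ≤ ((L0 : ℝ) ^ (2 * d + 1))⁻¹ := by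
      intro a
      have hs : ∀ s : ℝ, s = 1 ∨ s = -1 →
          (PP d).real {ω | ¬ ∀ x ∈ Q a (L0 - (N + 1) * N),
            GE N (PI d mB) η (fun y => s * pot ω y) x} ≤
          (2 * (L0 : ℝ) + 1) ^ d * Real.exp (-Real.exp (2 * (d : ℝ) ^ β)) := by
        intro s hs
        refine (map_real s hs {W | ¬ ∀ x ∈ Q a (L0 - (N + 1) * N),
            GE N (PI d mB) η W x}).trans ?_
        refine (Core.box hPRB hd1 N 1 η mB one_pos hη0 mB_le h8 _).trans ?_
        rw [card_Q]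
        have h0 : 0 ≤ pr d N 1 η := by unfold pr; positivity
        have h2 : (2 * (((L0 - (N + 1) * N : ℕ)) : ℝ) + 1) ≤ 2 * (L0 : ℝ) + 1 := by
          have : ((L0 - (N + 1) * N : ℕ) : ℝ) ≤ L0 := by exact_mod_cast Nat.sub_le _ _
          linarith
        push_cast at h2 ⊢
        have h3 : pr d N 1 η ≤ Real.exp (-Real.exp (2 * (d : ℝ) ^ β)) := b3
        have h4 : (0 : ℝ) ≤ 2 * ((L0 - (N + 1) * N : ℕ) : ℝ) + 1 := by positivity
        push_cast at h4
        gcongr
      have hsub : {ω | ¬ J N η L0 ω a} ⊆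
          {ω | ¬ ∀ x ∈ Q a (L0 - (N + 1) * N), GE N (PI d mB) η (fun y => (1 : ℝ) * pot ω y) x} ∪
          {ω | ¬ ∀ x ∈ Q a (L0 - (N + 1) * N),
            GE N (PI d mB) η (fun y => (-1 : ℝ) * pot ω y) x} := by
        intro ω hω
        by_contra hcon
        rw [Set.mem_union, not_or] at hcon
        obtain ⟨p1, p2⟩ := hcon
        apply hω
        rintro s (rfl | rfl)
        · exact not_not.1 p1
        · exact not_not.1 p2
      refine (measureReal_mono hsub (measure_ne_top _ _)).trans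
        ((measureReal_union_le _ _).trans ?_)
      refine (add_le_add (hs 1 (Or.inl rfl)) (hs (-1) (Or.inr rfl))).trans ?_
      refine le_trans (le_of_eq ?_) c7
      ring
    set B : Set ℝ := Set.Ioo (-1) (E - r) ∪ Set.Ioo (4 * d - E + r) (4 * d + 1) with hB
    have hgood : ∀ E' ∈ B, ∀ (ω : V d → Bool) (a : V d), J N η L0 ω a →
        Good ω E' L0 (((L0 : ℝ) ^ (4 * (3 * d + 4) + 2 * d + 2))⁻¹) a := by
      intro E' hE' ω a hJ
      have hE'' : E' ≤ -(-E + r / 2) - r / 2 ∨ 4 * d + (-E + r / 2) + r / 2 ≤ E' := by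
        rcases hE' with h | h
        · left; linarith [h.2]
        · right; linarith [h.1]
      have hab := abs_le.1 hE2
      refine (hDEC hd1 ω a (-E + r / 2) (r / 2) (L0 - (N + 1) * N) L0
        (fun s => fi N N (PI d mB) (fun y => s * pot ω y)) (by linarith) (by linarith)
        (by rw [abs_le]; constructor <;> linarith [hab.1, hab.2]) (Nat.sub_le _ _) ?_ E' hE'').mono a3
      intro s hs
      obtain ⟨f1, f2⟩ := Core.sup hRES hd1 N 1 r (PI d mB) zero_le_one (Core.ae_Bd mB 1 mB_le) b1 b2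
        hr0.le (fun y => s * pot ω y) (bd_s s hs ω)
      refine ⟨f1, fun x hx => ?_⟩
      have f3 := abs_le.1 (f2 x (hJ s hs x hx))
      have f4 := (f1 x).1
      unfold Lp at f3
      nlinarith [f3.1, f3.2]
    have hBm : MeasurableSet B := measurableSet_Ioo.union measurableSet_Ioo
    have hBb : B ⊆ Set.Ioc (-(4 * d + 2) : ℝ) (4 * d + 2) := by
      have hab := abs_le.1 hE2
      rintro E' (hE' | hE')
      · exact ⟨by linarith [hE'.1], by linarith [hE'.2, hab.2]⟩
      · exact ⟨by linarith [hE'.1, hab.2], by linarith [hE'.2]⟩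
    have hmain := engine (by omega : 2 ≤ d) (fun a => dep hLOC N η L0 c5 a)
      (Nat.one_le_iff_ne_zero.2 (by rw [hL0]; unfold LL; positivity)) c1 c2 c4 hP hBm hBb hgood
    refine ⟨B ∩ XX d (3 * d + 4) L0, hBm.inter (measurableSet_XX _ _), ?_, hmain⟩
    have hsub : B \ (B ∩ XX d (3 * d + 4) L0) ⊆ (XX d (3 * d + 4) L0)ᶜ := by
      rintro E' ⟨h1, h2⟩ h3
      exact h2 ⟨h1, h3⟩
    refine (measure_mono hsub).trans ((volume_compl_XX rfl c3).trans ?_)
    apply ENNReal.ofReal_le_ofReal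
    refine c6.trans ?_
    have := Real.exp_pos (-Real.exp ((d : ℝ) ^ β))
    linarith

end Pool.Agent.Y661.HE.FinB
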