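import Pool.Agent.H4R2.HU.Defs

/-!
# The Anderson model in high dimension: the effective band edge, exponentially precisely

Definitions and the statements of the parts (project HE, helper661).

`un n` are the correctors of the ground state `φ = ∑ un n` of `-Δ + W` (`W` iid, bounded by `c`), built
with the parametrix `Gn N` of `-Δ`, and `Es = ∑ en n` is the effective band edge.
-/

set_option autoImplicit false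

open scoped BigOperators ENNReal
open MeasureTheory Filter

namespace Pool.Agent.Y661.HE

open Pool.Agent.H12R2.And (V ee Q pot PP Dep Good)
open Pool.Agent.H4R2.HD (Av Gn ind)

/-- `-Δ f` -/
noncomputable def Lp {d : ℕ} (f : V d → ℝ) (x : V d) : ℝ :=
  2 * d * f x - ∑ i : Fin d, (f (x + ee i) + f (x - ee i))

/-- the correctors -/
noncomputable def un {d : ℕ} (N : ℕ) (P : Measure (V d → ℝ)) : ℕ → (V d → ℝ) → V d → ℝ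
  | 0 => fun _ _ => 1
  | (n + 1) => fun W => Gn N (fun x => -(W x * un N P n W x) +
      ∑ k : Fin (n + 1), (∫ W', W' 0 * un N P k W' 0 ∂P) * un N P (n - k) W x)
termination_by n => n
decreasing_by
  · omega
  · have := k.2
    omega
  · omega

/-- the coefficients of the energy -/
noncomputable def en {d : ℕ} (N : ℕ) (P : Measure (V d → ℝ)) : ℕ → ℝ
  | 0 => 0
  | (n + 1) => ∫ W, W 0 * un N P n W 0 ∂P

/-- the right hand sides: `un (n + 1) = Gn N (gn n)` -/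
noncomputable def gn {d : ℕ} (N : ℕ) (P : Measure (V d → ℝ)) (n : ℕ) (W : V d → ℝ) (x : V d) : ℝ :=
  -(W x * un N P n W x) + ∑ k ∈ Finset.range (n + 1), en N P (k + 1) * un N P (n - k) W x

/-- the approximate ground state -/
noncomputable def fi {d : ℕ} (N K : ℕ) (P : Measure (V d → ℝ)) (W : V d → ℝ) (x : V d) : ℝ :=
  ∑ n ∈ Finset.range (K + 1), un N P n W x

/-- the effective band edge -/
noncomputable def Es {d : ℕ} (N K : ℕ) (P : Measure (V d → ℝ)) : ℝ :=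
  ∑ n ∈ Finset.range (K + 1), en N P n

/-- bounded by `c` -/
def Bd {d : ℕ} (c : ℝ) (W : V d → ℝ) : Prop := ∀ x, |W x| ≤ c

theorem un_zero {d : ℕ} (N : ℕ) (P : Measure (V d → ℝ)) (W : V d → ℝ) (x : V d) :
    un N P 0 W x = 1 := by
  rw [un]

theorem un_succ {d : ℕ} (N : ℕ) (P : Measure (V d → ℝ)) (n : ℕ) (W : V d → ℝ) :
    un N P (n + 1) W = Gn N (gn N P n W) := by
  have h : gn N P n W = fun x => -(W x * un N P n W x) +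
      ∑ k : Fin (n + 1), (∫ W', W' 0 * un N P k W' 0 ∂P) * un N P (n - k) W x := by
    funext x
    unfold gn
    rw [Finset.sum_range]
    rfl
  rw [un, h]

/-- the product law -/
noncomputable def PI (d : ℕ) (μ : Measure ℝ) : Measure (V d → ℝ) :=
  Measure.infinitePi fun _ : Fin d → ℤ => μ

instance (d : ℕ) (μ : Measure ℝ) [IsProbabilityMeasure μ] : IsProbabilityMeasure (PI d μ) := by
  unfold PI; infer_instance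

/-! ### bounds, residual -/

def S_BND : Prop := ∀ {d : ℕ}, 1 ≤ d → ∀ (N : ℕ) (c : ℝ) (P : Measure (V d → ℝ))
  [IsProbabilityMeasure P], 0 ≤ c → (∀ᵐ W ∂P, Bd c W) →
  (∀ n, |en N P (n + 1)| ≤ c * catalan n * (c * N / d) ^ n) ∧
  ∀ W, Bd c W → ∀ n x, |un N P n W x| ≤ catalan n * (c * N / d) ^ n ∧
    |gn N P n W x| ≤ 2 * c * catalan (n + 1) * (c * N / d) ^ n

def S_RES : Prop := ∀ {d : ℕ}, 1 ≤ d → ∀ (N K : ℕ) (c : ℝ) (P : Measure (V d → ℝ))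
  [IsProbabilityMeasure P], 0 ≤ c → (∀ᵐ W ∂P, Bd c W) → 8 * c * N / d ≤ 1 → ∀ W, Bd c W →
  (∀ x, |fi N K P W x - 1| ≤ 8 * c * N / d) ∧
  ∀ x, |Lp (fi N K P W) x + (W x - Es N K P) * fi N K P W x| ≤
    ∑ n ∈ Finset.range K, |(Av^[N] (gn N P n W)) x| + 9 * c * (4 * c * N / d) ^ K

/-! ### influences, locality, measurability, covariance, mean -/

def S_INF : Prop := ∀ {d : ℕ}, 1 ≤ d → ∀ (N : ℕ) (c : ℝ) (P : Measure (V d → ℝ))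
  [IsProbabilityMeasure P], 0 ≤ c → (∀ᵐ W ∂P, Bd c W) → ∀ (z : V d) (W W' : V d → ℝ),
  Bd c W → Bd c W' → (∀ y, y ≠ z → W y = W' y) → ∀ n x,
  |un N P n W x - un N P n W' x| ≤
    (1 / 6) * (8 * c * N / d) ^ n * ∑ j ∈ Finset.range (n * N), (Av^[j] (ind z)) x ∧
  |gn N P n W x - gn N P n W' x| ≤
    3 * c * (8 * c * N / d) ^ n * ∑ j ∈ Finset.range (n * N + 1), (Av^[j] (ind z)) x ∧
  |(Av^[N] (gn N P n W)) x - (Av^[N] (gn N P n W')) x| ≤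
    3 * c * (8 * c * N / d) ^ n * ∑ j ∈ Finset.range (n * N + 1), (Av^[N + j] (ind z)) x

def S_LOC : Prop := ∀ {d : ℕ} (N : ℕ) (P : Measure (V d → ℝ)) (n : ℕ) (x : V d)
  (W W' : V d → ℝ),
  ((∀ y ∈ Q x (n * N), W y = W' y) → un N P n W x = un N P n W' x ∧
    gn N P n W x = gn N P n W' x) ∧
  ((∀ y ∈ Q x ((n + 1) * N), W y = W' y) →
    (Av^[N] (gn N P n W)) x = (Av^[N] (gn N P n W')) x)

def S_MEA : Prop := ∀ {d : ℕ} (N : ℕ) (P : Measure (V d → ℝ)) (n m : ℕ) (x : V d),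
  (Measurable fun W => un N P n W x) ∧ (Measurable fun W => gn N P n W x) ∧
  (Measurable fun W => (Av^[m] (gn N P n W)) x)

def S_COV : Prop := ∀ {d : ℕ} (N : ℕ) (P : Measure (V d → ℝ)) (n : ℕ) (a x : V d)
  (W : V d → ℝ), un N P n (fun y => W (y + a)) x = un N P n W (x + a) ∧
    gn N P n (fun y => W (y + a)) x = gn N P n W (x + a)

def S_MEN : Prop := ∀ {d : ℕ}, 1 ≤ d → ∀ (N : ℕ) (c : ℝ) (μ : Measure ℝ)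
  [IsProbabilityMeasure μ], (∀ᵐ t ∂μ, |t| ≤ c) → ∀ (n : ℕ) (x : V d),
  ∫ W, un N (PI d μ) (n + 1) W x ∂(PI d μ) = 0 ∧ ∫ W, gn N (PI d μ) n W x ∂(PI d μ) = 0 ∧
  ∫ W, (Av^[N] (gn N (PI d μ) n W)) x ∂(PI d μ) = 0

/-! ### concentration -/

/-- McDiarmid's inequality for local functions of infinitely many iid bounded variables -/
def S_PT : Prop := ∀ {d : ℕ} (μ : Measure ℝ) [IsProbabilityMeasure μ] (c : ℝ)
  (F : Finset (V d)) (f : (V d → ℝ) → ℝ) (b : V d → ℝ) (S t : ℝ), (∀ᵐ s ∂μ, |s| ≤ c) →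
  Measurable f → (∀ W W' : V d → ℝ, (∀ x ∈ F, W x = W' x) → f W = f W') →
  (∃ M, ∀ W, Bd c W → |f W| ≤ M) →
  (∀ z ∈ F, ∀ (W : V d → ℝ) (s s' : ℝ), Bd c W → |s| ≤ c → |s'| ≤ c →
    |f (Function.update W z s) - f (Function.update W z s')| ≤ b z) →
  ∑ z ∈ F, b z ^ 2 ≤ S → 0 < S → 0 ≤ t →
  (PI d μ).real {W | t < |f W - ∫ W', f W' ∂(PI d μ)|} ≤ 2 * Real.exp (-(2 * t ^ 2 / S))

def S_PRB : Prop := ∀ {d : ℕ}, 1 ≤ d → ∀ (N K : ℕ) (c η : ℝ) (μ : Measure ℝ)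
  [IsProbabilityMeasure μ], 0 < c → 0 ≤ η → (∀ᵐ t ∂μ, |t| ≤ c) → 8 * c * N / d ≤ 1 →
  ∀ (n : ℕ) (x : V d), n < K →
  (PI d μ).real {W | η < |(Av^[N] (gn N (PI d μ) n W)) x|} ≤
    2 * Real.exp (-(2 * η ^ 2 * (Real.sqrt d) ^ N /
      (9 * c ^ 2 * ((K : ℝ) * N + 1) ^ 2 * ((N + 1).factorial : ℝ))))

/-! ### forms -/

/-- form bound from a positive supersolution -/
def S_LOW : Prop := ∀ {d : ℕ} (a : V d) (R : ℕ) (φ W : V d → ℝ) (E : ℝ), (∀ x, 0 < φ x) →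
  (∀ x ∈ Q a R, E * φ x ≤ Lp φ x + W x * φ x) → ∀ g : V d → ℝ, (∀ x, x ∉ Q a R → g x = 0) →
  E * ∑ x ∈ Q a R, g x ^ 2 ≤ ∑ x ∈ Q a R, g x * (Lp g x + W x * g x)

/-- a test function -/
def S_UPP : Prop := ∀ {d : ℕ}, 1 ≤ d → ∀ (a : V d) (R : ℕ) (φ W : V d → ℝ) (E ρ : ℝ), 0 ≤ ρ →
  (∀ x, 1 / 2 ≤ φ x ∧ φ x ≤ 3 / 2) →
  (∀ x ∈ Q a R, |Lp φ x + (W x - E) * φ x| ≤ ρ) →
  ∀ g : V d → ℝ, (∀ x ∈ Q a R, g x = φ x) → (∀ x, x ∉ Q a R → g x = 0) →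
  ∑ x ∈ Q a R, g x * (Lp g x + W x * g x) ≤
    (E + 2 * ρ + 18 * d / (2 * R + 1)) * ∑ x ∈ Q a R, g x ^ 2

/-- decay of the solutions from supersolutions at both edges -/
def S_DEC : Prop := ∀ {d : ℕ}, 1 ≤ d → ∀ (ω : V d → Bool) (a : V d) (l δ : ℝ) (M L0 : ℕ)
  (φ : ℝ → V d → ℝ), 0 < δ → δ ≤ 1 / 2 → |l| ≤ 1 / 2 → M ≤ L0 →
  (∀ s : ℝ, s = 1 ∨ s = -1 → (∀ x, 1 / 2 ≤ φ s x ∧ φ s x ≤ 3 / 2) ∧ ∀ x ∈ Q a M,
    ∑ i : Fin d, (φ s (x + ee i) + φ s (x - ee i)) ≤ (2 * d + s * pot ω x + l) * φ s x) →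
  ∀ E : ℝ, (E ≤ -l - δ ∨ 4 * d + l + δ ≤ E) → Good ω E L0 (3 * (1 - δ / (8 * d)) ^ (M + 1)) a

/-! ### the energy -/

/-- the first coefficients, symmetric law -/
def S_ENE : Prop := ∀ {d : ℕ}, 1 ≤ d → ∀ (N : ℕ) (c v : ℝ) (μ : Measure ℝ)
  [IsProbabilityMeasure μ], (∀ᵐ t ∂μ, |t| ≤ c) → μ.map (fun t => -t) = μ → ∫ t, t ^ 2 ∂μ = v →
  en N (PI d μ) 1 = 0 ∧
  en N (PI d μ) 2 = -(v / (2 * d)) * ∑ j ∈ Finset.range N, (Av^[j] (ind (0 : V d))) 0 ∧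
  en N (PI d μ) 3 = 0

/-- return probabilities -/
def S_RET : Prop := ∀ {d : ℕ}, 1 ≤ d → ∀ N : ℕ, 3 ≤ N →
  |∑ j ∈ Finset.range N, (Av^[j] (ind (0 : V d))) 0 - (1 + 1 / (2 * d))| ≤ 120 * N / d ^ 2

def S_EXP : Prop := ∀ {d : ℕ}, 1 ≤ d → ∀ (N K : ℕ) (c v : ℝ) (μ : Measure ℝ)
  [IsProbabilityMeasure μ], 0 < c → (∀ᵐ t ∂μ, |t| ≤ c) → μ.map (fun t => -t) = μ →
  ∫ t, t ^ 2 ∂μ = v → 8 * c * N / d ≤ 1 → 3 ≤ N → 2 ≤ K →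
  |Es N K (PI d μ) + v / (2 * d) * (1 + 1 / (2 * d))| ≤
    60 * v * N / d ^ 3 + 128 * c ^ 4 * N ^ 3 / d ^ 3

/-! ### parameters and asymptotics -/

/-- the number of terms -/
noncomputable def NN (β : ℝ) (d : ℕ) : ℕ := ⌈(d : ℝ) ^ β⌉₊

/-- the precision -/
noncomputable def rr (β : ℝ) (d : ℕ) : ℝ := Real.exp (-(d : ℝ) ^ β)

/-- the bound for each error term -/
noncomputable def et (β : ℝ) (d : ℕ) : ℝ := rr β d / (8 * NN β d)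

/-- the probability of failure at a site -/
noncomputable def pr (d N : ℕ) (c η : ℝ) : ℝ :=
  2 * N * Real.exp (-(2 * η ^ 2 * (Real.sqrt d) ^ N /
      (9 * c ^ 2 * ((N : ℝ) * N + 1) ^ 2 * ((N + 1).factorial : ℝ))))

/-- the initial scale for the Bernoulli law -/
noncomputable def LL (β : ℝ) (d : ℕ) : ℕ := 2 ^ (2 * ⌈Real.exp ((d : ℝ) ^ β)⌉₊)

def S_AS1 : Prop := ∀ β : ℝ, 0 < β → β < 1 / 2 → ∀ᶠ d : ℕ in atTop, ∀ c : ℝ, 0 < c →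
  c ≤ (d : ℝ) ^ (1 / 4 : ℝ) →
  16 * c * NN β d / d ≤ 1 ∧ 9 * c * (4 * c * NN β d / d) ^ (NN β d) ≤ rr β d / 8 ∧
  pr d (NN β d) c (et β d) ≤ Real.exp (-Real.exp (2 * (d : ℝ) ^ β))

def S_AS2 : Prop := ∀ β : ℝ, 0 < β → β < 1 / 2 → ∀ᶠ d : ℕ in atTop,
  (2 * d * 17 ^ d) ^ 2 * 10 ^ (4 * (3 * d + 4) + 2 * d + 2) ≤ LL β d ∧
  6 * 17 ^ (2 * d) * 10 ^ (2 * d + 1) ≤ LL β d ∧
  12 * 17 ^ d ≤ LL β d ∧ 4 ^ d * (4 * d ^ 2) ≤ LL β d ∧ (NN β d + 1) * NN β d ≤ LL β d ∧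
  ((LL β d : ℕ) : ℝ)⁻¹ ≤ Real.exp (-Real.exp ((d : ℝ) ^ β)) / 2 ∧
  (2 * ((LL β d : ℕ) : ℝ) + 1) ^ d * (2 * Real.exp (-Real.exp (2 * (d : ℝ) ^ β))) ≤
    (((LL β d : ℕ) : ℝ) ^ (2 * d + 1))⁻¹

def S_AS3 : Prop := ∀ β : ℝ, 0 < β → β < 1 / 2 → ∀ᶠ d : ℕ in atTop,
  3 * (1 - rr β d / 2 / (8 * d)) ^ (LL β d - (NN β d + 1) * NN β d + 1) ≤
    (((LL β d : ℕ) : ℝ) ^ (4 * (3 * d + 4) + 2 * d + 2))⁻¹

def S_AS4 : Prop := ∀ β : ℝ, 0 < β → β < 1 / 2 → ∀ m : ℕ, ∀ᶠ d : ℕ in atTop, ∀ c κ : ℝ,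
  ((d : ℝ) ^ m)⁻¹ ≤ c → κ = rr β d / 2 →
  (2 / κ) ^ (Pool.Agent.H4R2.HU.CC d c) * (((2 / κ) ^ (Pool.Agent.H4R2.HU.CC d c)) ^ d *
    Real.exp (-Real.exp (2 * (d : ℝ) ^ β))) ≤ 1 ∧
  Real.exp (-(d : ℝ) ^ β) ≤
    Real.sqrt κ / (50 * Pool.Agent.H4R2.HU.CC d c * Real.log (2 / κ))

def S_AS5 : Prop := ∀ β : ℝ, 0 < β → β < 1 / 2 → ∀ᶠ d : ℕ in atTop,
  (2 * Real.exp (Real.exp ((d : ℝ) ^ β)) + 1) ^ d * Real.exp (-Real.exp (2 * (d : ℝ) ^ β)) ≤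
    Real.exp (-Real.exp ((d : ℝ) ^ β)) ∧
  36 * d * Real.exp ((d : ℝ) ^ β) ≤ Real.exp (2 * (d : ℝ) ^ β) ∧ 3 ≤ NN β d ∧
  Real.exp (-Real.exp ((d : ℝ) ^ β)) ≤ 1 / 4

def S_AS6 : Prop := ∀ β β' : ℝ, 0 < β → β < 1 / 2 → 0 < β' → β' < 1 / 2 →
  ∀ᶠ d : ℕ in atTop, ∃ R : ℕ,
  Real.exp (2 * (d : ℝ) ^ β) ≤ R ∧ (R : ℝ) ≤ Real.exp (Real.exp ((d : ℝ) ^ β)) ∧
  Real.exp (2 * (d : ℝ) ^ β') ≤ R ∧ (R : ℝ) ≤ Real.exp (Real.exp ((d : ℝ) ^ β'))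

def S_AS7 : Prop := ∀ β : ℝ, 0 < β → β < 1 / 2 → ∀ m : ℕ, ∀ᶠ d : ℕ in atTop, ∀ c v : ℝ,
  ((d : ℝ) ^ m)⁻¹ ≤ c → c ≤ (d : ℝ) ^ (1 / 4 : ℝ) → 0 ≤ v → v ≤ c ^ 2 →
  60 * v * NN (1 / 20) d / d ^ 3 + 128 * c ^ 4 * (NN (1 / 20) d : ℝ) ^ 3 / d ^ 3 +
    rr β d + rr (1 / 20) d ≤ c ^ 2 * (d : ℝ) ^ (-(9 / 4) : ℝ)

end Pool.Agent.Y661.HE
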